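import Mathlib

set_option autoImplicit false

namespace Pool.Agent.MP_f6404a_co

open Polynomial

variable {p : ℕ} [Fact p.Prime] {R : Type} [CommRing R] [Algebra (ZMod p) R]

/-- the group element `y^a z^b` -/
def E (y z : Rˣ) (a b : ℤ) : R := ((y ^ a * z ^ b : Rˣ) : R)

omit [Fact p.Prime] [Algebra (ZMod p) R] in
theorem E_add (y z : Rˣ) (a b a' b' : ℤ) : E y z (a + a') (b + b') = E y z a b * E y z a' b' := by
  unfold E
  rw [← Units.val_mul, zpow_add, zpow_add]
  congr 1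
  exact mul_mul_mul_comm _ _ _ _

omit [Fact p.Prime] [Algebra (ZMod p) R] in
theorem E_zero (y z : Rˣ) : E y z 0 0 = 1 := by
  simp [E]

omit [Fact p.Prime] [Algebra (ZMod p) R] in
theorem E_swap (y z : Rˣ) (a b : ℤ) : E y z a b = E z y b a := by
  unfold E
  rw [mul_comm]

omit [Fact p.Prime] [Algebra (ZMod p) R] in
theorem E_nat (y z : Rˣ) (a b : ℕ) : E y z a b = (y : R) ^ a * (z : R) ^ b := by
  simp [E]

omit [Fact p.Prime] [Algebra (ZMod p) R] in
theorem E_mul_left (y z : Rˣ) (a b : ℤ) (s : ℕ) : E y z a b * (y : R) ^ s = E y z (a + s) b := by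
  have h := E_add y z a b s 0
  rw [add_zero] at h
  rw [h]
  congr 1
  simp [E]

omit [Fact p.Prime] [Algebra (ZMod p) R] in
theorem E_mul_right (y z : Rˣ) (a b : ℤ) (s : ℕ) : E y z a b * (z : R) ^ s = E y z a (b + s) := by
  rw [E_swap, E_mul_left, E_swap]

/-- functions with bounded poles -/
def Lset (p : ℕ) [Fact p.Prime] {R : Type} [CommRing R] [Algebra (ZMod p) R] (y z : Rˣ)
    (A0 A1 A2 : ℕ) : Set R :=
  {v | ∃ f : (ZMod p)[X], f.natDegree ≤ A0 + A1 + A2 ∧
    v * (y : R) ^ A0 * (z : R) ^ A1 = aeval (y : R) f}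

section lset

variable (y z : Rˣ)

theorem Lset_add {A0 A1 A2 : ℕ} {v w : R} (hv : v ∈ Lset p y z A0 A1 A2)
    (hw : w ∈ Lset p y z A0 A1 A2) : v + w ∈ Lset p y z A0 A1 A2 := by
  obtain ⟨f, hf, hf'⟩ := hv
  obtain ⟨g, hg, hg'⟩ := hw
  refine ⟨f + g, (natDegree_add_le _ _).trans (max_le hf hg), ?_⟩
  rw [map_add, ← hf', ← hg']
  ring

theorem Lset_zero (A0 A1 A2 : ℕ) : (0 : R) ∈ Lset p y z A0 A1 A2 :=
  ⟨0, by simp, by simp⟩

theorem Lset_smul {A0 A1 A2 : ℕ} (c : ZMod p) {v : R} (hv : v ∈ Lset p y z A0 A1 A2) :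
    c • v ∈ Lset p y z A0 A1 A2 := by
  obtain ⟨f, hf, hf'⟩ := hv
  refine ⟨c • f, (natDegree_smul_le _ _).trans hf, ?_⟩
  rw [map_smul, ← hf', smul_mul_assoc, smul_mul_assoc]

theorem Lset_sum {A0 A1 A2 : ℕ} {ι : Type} (s : Finset ι) (c : ι → ZMod p) (v : ι → R)
    (h : ∀ i ∈ s, v i ∈ Lset p y z A0 A1 A2) : ∑ i ∈ s, c i • v i ∈ Lset p y z A0 A1 A2 := by
  classical
  induction s using Finset.induction_on with
  | empty => simpa using Lset_zero y z A0 A1 A2
  | insert a s ha ih =>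
    rw [Finset.sum_insert ha]
    exact Lset_add y z (Lset_smul y z _ (h a (Finset.mem_insert_self _ _)))
      (ih fun i hi => h i (Finset.mem_insert_of_mem hi))

theorem Lset_mono0 {A0 A1 A2 : ℕ} (k : ℕ) {v : R} (hv : v ∈ Lset p y z A0 A1 A2) :
    v ∈ Lset p y z (A0 + k) A1 A2 := by
  obtain ⟨f, hf, hf'⟩ := hv
  refine ⟨f * X ^ k, ?_, ?_⟩
  · refine natDegree_mul_le.trans ?_
    rw [natDegree_X_pow]
    omega
  · rw [map_mul, ← hf', map_pow, aeval_X, pow_add]
    ring

theorem Lset_mono1 (hyz : (y : R) + z = 2) {A0 A1 A2 : ℕ} (k : ℕ) {v : R}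
    (hv : v ∈ Lset p y z A0 A1 A2) :
    v ∈ Lset p y z A0 (A1 + k) A2 := by
  obtain ⟨f, hf, hf'⟩ := hv
  refine ⟨f * (C 2 - X) ^ k, ?_, ?_⟩
  · refine natDegree_mul_le.trans ?_
    have h1 : ((C 2 - X : (ZMod p)[X]) ^ k).natDegree ≤ k := by
      refine natDegree_pow_le.trans ?_
      have : (C 2 - X : (ZMod p)[X]).natDegree ≤ 1 := by
        refine (natDegree_sub_le _ _).trans ?_
        rw [natDegree_C]
        exact max_le (Nat.zero_le _) natDegree_X_le
      calc k * _ ≤ k * 1 := Nat.mul_le_mul_left _ this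
        _ = k := mul_one _
    omega
  · have h2 : aeval (y : R) (C 2 - X : (ZMod p)[X]) = z := by
      rw [map_sub, aeval_X, aeval_C, map_ofNat]
      rw [← hyz]; ring
    rw [map_mul, ← hf', map_pow, h2, pow_add]
    ring

theorem Lset_mono2 {A0 A1 A2 : ℕ} (k : ℕ) {v : R} (hv : v ∈ Lset p y z A0 A1 A2) :
    v ∈ Lset p y z A0 A1 (A2 + k) := by
  obtain ⟨f, hf, hf'⟩ := hv
  exact ⟨f, by omega, hf'⟩

theorem E_mem_Lset (hyz : (y : R) + z = 2) {A0 A1 A2 : ℕ} (a b : ℤ) (ha : -(A0 : ℤ) ≤ a)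
    (hb : -(A1 : ℤ) ≤ b) (hab : a + b ≤ A2) : E y z a b ∈ Lset p y z A0 A1 A2 := by
  obtain ⟨s, hs⟩ : ∃ s : ℕ, a + A0 = s := ⟨(a + A0).toNat, by omega⟩
  obtain ⟨t, ht⟩ : ∃ t : ℕ, b + A1 = t := ⟨(b + A1).toNat, by omega⟩
  refine ⟨X ^ s * (C 2 - X) ^ t, ?_, ?_⟩
  · refine natDegree_mul_le.trans ?_
    rw [natDegree_X_pow]
    have h1 : ((C 2 - X : (ZMod p)[X]) ^ t).natDegree ≤ t := by
      refine natDegree_pow_le.trans ?_
      have : (C 2 - X : (ZMod p)[X]).natDegree ≤ 1 := by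
        refine (natDegree_sub_le _ _).trans ?_
        rw [natDegree_C]
        exact max_le (Nat.zero_le _) natDegree_X_le
      calc t * _ ≤ t * 1 := Nat.mul_le_mul_left _ this
        _ = t := mul_one _
    omega
  · have h2 : aeval (y : R) (C 2 - X : (ZMod p)[X]) = z := by
      rw [map_sub, aeval_X, aeval_C, map_ofNat]
      rw [← hyz]; ring
    rw [map_mul, map_pow, map_pow, h2, aeval_X, E_mul_left, E_mul_right, hs, ht, E_nat]

theorem Lset_finite_card (A0 A1 A2 : ℕ) :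
    (Lset p y z A0 A1 A2).Finite ∧ (Lset p y z A0 A1 A2).ncard ≤ p ^ (A0 + A1 + A2 + 1) := by
  classical
  set n := A0 + A1 + A2 with hn
  let F : (Fin (n + 1) → ZMod p) → R := fun c =>
    (∑ s, c s • (y : R) ^ (s : ℕ)) * ((z⁻¹ : Rˣ) : R) ^ A1 * ((y⁻¹ : Rˣ) : R) ^ A0
  have hsub : Lset p y z A0 A1 A2 ⊆ Set.range F := by
    rintro v ⟨f, hf, hf'⟩
    refine ⟨fun s => f.coeff s, ?_⟩
    have h1 : aeval (y : R) f = ∑ s ∈ Finset.range (n + 1), f.coeff s • (y : R) ^ s :=
      aeval_eq_sum_range' (by omega) _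
    have h2 : (∑ s : Fin (n + 1), f.coeff s • (y : R) ^ (s : ℕ)) = aeval (y : R) f := by
      rw [h1, Finset.sum_range]
    simp only [F]
    rw [h2, ← hf']
    have h3 : (z : R) ^ A1 * ((z⁻¹ : Rˣ) : R) ^ A1 = 1 := by
      rw [← mul_pow, Units.mul_inv, one_pow]
    have h4 : (y : R) ^ A0 * ((y⁻¹ : Rˣ) : R) ^ A0 = 1 := by
      rw [← mul_pow, Units.mul_inv, one_pow]
    calc v * (y : R) ^ A0 * (z : R) ^ A1 * ((z⁻¹ : Rˣ) : R) ^ A1 * ((y⁻¹ : Rˣ) : R) ^ A0
        = v * ((y : R) ^ A0 * ((y⁻¹ : Rˣ) : R) ^ A0) * ((z : R) ^ A1 * ((z⁻¹ : Rˣ) : R) ^ A1) := by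
          ring
      _ = v := by rw [h3, h4, mul_one, mul_one]
  have hfin : (Set.range F).Finite := Set.finite_range F
  refine ⟨hfin.subset hsub, ?_⟩
  refine (Set.ncard_le_ncard hsub hfin).trans ?_
  rw [← Set.image_univ]
  refine (Set.ncard_image_le (Set.toFinite _)).trans ?_
  rw [Set.ncard_univ, Nat.card_eq_fintype_card, Fintype.card_fun, Fintype.card_fin, ZMod.card]

end lset

section span

theorem aeval_mem (S : Submodule (ZMod p) R) (w x : R) (M : ℕ)
    (h : ∀ t, t ≤ M → w * x ^ t ∈ S) (f : (ZMod p)[X]) (hf : f.natDegree ≤ M) :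
    w * aeval x f ∈ S := by
  rw [aeval_eq_sum_range' (show f.natDegree < M + 1 by omega), Finset.mul_sum]
  apply Submodule.sum_mem
  intro t ht
  rw [mul_smul_comm]
  exact S.smul_mem _ (h t (by rw [Finset.mem_range] at ht; omega))

theorem natDegree_two_sub_pow (t : ℕ) : ((C 2 - X : (ZMod p)[X]) ^ t).natDegree ≤ t := by
  refine natDegree_pow_le.trans ?_
  have : (C 2 - X : (ZMod p)[X]).natDegree ≤ 1 := by
    refine (natDegree_sub_le _ _).trans ?_
    rw [natDegree_C]
    exact max_le (Nat.zero_le _) natDegree_X_le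
  calc t * _ ≤ t * 1 := Nat.mul_le_mul_left _ this
    _ = t := mul_one _

theorem aeval_two_sub (x w : R) (h : x + w = 2) :
    aeval x (C 2 - X : (ZMod p)[X]) = w := by
  rw [map_sub, aeval_X, aeval_C, map_ofNat, ← h]
  ring

/-- Spanning along the efficient path. -/
theorem span_path (y z : Rˣ) (hyz : (y : R) + z = 2) (h2 : (2 : ZMod p) ≠ 0) (N : ℕ)
    (hspan : ∀ v : R, ∃ f : (ZMod p)[X], f.natDegree ≤ N - 1 ∧ v = aeval (y : R) f)
    (i0 j : ℕ) (hi : i0 < j) (hj : j ≤ N - 1) (v : R) :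
    ∃ c : ℕ → ZMod p, v = ∑ s ∈ Finset.range (N - 1 + 1),
      c s • E y z (-((s - i0 : ℕ) : ℤ)) ((min s j : ℕ) : ℤ) := by
  classical
  let π : ℕ → R := fun s => E y z (-((s - i0 : ℕ) : ℤ)) ((min s j : ℕ) : ℤ)
  let S : ℕ → Submodule (ZMod p) R := fun T => Submodule.span (ZMod p) (π '' {s | s ≤ T})
  have hmono : ∀ T, S T ≤ S (T + 1) := by
    intro T
    apply Submodule.span_mono
    apply Set.image_mono
    intro s hs
    exact Nat.le_succ_of_le hs
  have hmem : ∀ T s, s ≤ T → π s ∈ S T := fun T s hs =>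
    Submodule.subset_span ⟨s, hs, rfl⟩
  set m : ℕ := N - 1 - i0 with hm
  have key : ∀ T, i0 ≤ T → T ≤ N - 1 → ∀ k, N - 1 - T ≤ k → k ≤ N - 1 →
      E y z ((k : ℤ) - m) 0 ∈ S T := by
    intro T hT
    induction T, hT using Nat.le_induction with
    | base =>
      intro _ k hk hk'
      obtain ⟨r, hr⟩ : ∃ r : ℕ, (k : ℤ) - m = r := ⟨k - m, by omega⟩
      have hr' : r ≤ i0 := by omega
      have h3 : ∀ t, t ≤ i0 → (1 : R) * (z : R) ^ t ∈ S i0 := by
        intro t ht
        have h4 : π t = 1 * (z : R) ^ t := by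
          simp only [π]
          have e1 : t - i0 = 0 := by omega
          have e2 : min t j = t := by omega
          rw [e1, e2]
          have := E_nat y z 0 t
          rw [pow_zero] at this
          simpa using this
        rw [← h4]
        exact hmem _ _ ht
      have h5 := aeval_mem (S i0) 1 (z : R) i0 h3 ((C 2 - X) ^ r)
        ((natDegree_two_sub_pow r).trans hr')
      rw [map_pow, aeval_two_sub (z : R) (y : R) (by rw [add_comm]; exact hyz), one_mul] at h5
      rw [hr]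
      have h6 := E_nat y z r 0
      rw [pow_zero, mul_one] at h6
      have h7 : E y z (r : ℤ) 0 = (y : R) ^ r := by simpa using h6
      rw [h7]
      exact h5
    | succ T hT ih =>
      intro hTN k hk hk'
      have ih' := ih (by omega)
      by_cases hk2 : N - 1 - T ≤ k
      · exact hmono T (ih' k hk2 hk')
      · have hkT : k = N - 1 - (T + 1) := by omega
        set e := min (T + 1) j with he
        have hkm : (k : ℤ) - m = -((T + 1 - i0 : ℕ) : ℤ) := by omega
        -- the new generator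
        have h8 : π (T + 1) ∈ S (T + 1) := hmem _ _ le_rfl
        have h9 : π (T + 1) = E y z ((k : ℤ) - m) 0 * (z : R) ^ e := by
          rw [E_mul_right, hkm, zero_add]
        have h10 : (z : R) ^ e = aeval (y : R) ((C 2 - X : (ZMod p)[X]) ^ e) := by
          rw [map_pow, aeval_two_sub (y : R) (z : R) hyz]
        set g := ((C 2 - X : (ZMod p)[X]) ^ e).divX with hg
        have h11 : ((C 2 - X : (ZMod p)[X]) ^ e) = g * X + C (2 ^ e) := by
          have h12 := divX_mul_X_add ((C 2 - X : (ZMod p)[X]) ^ e)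
          have h13 : ((C 2 - X : (ZMod p)[X]) ^ e).coeff 0 = 2 ^ e := by
            rw [coeff_zero_eq_eval_zero, eval_pow, eval_sub, eval_C, eval_X, sub_zero]
          rw [h13] at h12
          exact h12.symm
        have h14 : E y z ((k : ℤ) - m) 0 * (z : R) ^ e =
            E y z ((k : ℤ) - m + 1) 0 * aeval (y : R) g + (2 ^ e : ZMod p) • E y z ((k : ℤ) - m) 0 := by
          rw [h10, h11, map_add, map_mul, aeval_X, aeval_C]
          have h15 := E_mul_left y z ((k : ℤ) - m) 0 1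
          rw [pow_one] at h15
          push_cast at h15
          rw [← h15, Algebra.smul_def]
          ring
        have hgdeg : g.natDegree ≤ e - 1 := by
          rw [hg, natDegree_divX_eq_natDegree_tsub_one]
          have := natDegree_two_sub_pow (p := p) e
          omega
        have h16 : E y z ((k : ℤ) - m + 1) 0 * aeval (y : R) g ∈ S T := by
          apply aeval_mem (S T) _ _ (e - 1) _ g hgdeg
          intro t ht
          rw [E_mul_left]
          have h17 : (k : ℤ) - m + 1 + t = ((k + 1 + t : ℕ) : ℤ) - m := by push_cast; ring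
          rw [h17]
          apply ih'
          · omega
          · omega
        have h18 : (2 ^ e : ZMod p) • E y z ((k : ℤ) - m) 0 ∈ S (T + 1) := by
          have h19 : (2 ^ e : ZMod p) • E y z ((k : ℤ) - m) 0 =
              π (T + 1) - E y z ((k : ℤ) - m + 1) 0 * aeval (y : R) g := by
            rw [h9, h14]; ring
          rw [h19]
          exact (S (T + 1)).sub_mem h8 (hmono T h16)
        have h20 := (S (T + 1)).smul_mem ((2 ^ e : ZMod p)⁻¹) h18
        rw [smul_smul, inv_mul_cancel₀ (pow_ne_zero _ h2), one_smul] at h20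
        exact h20
  -- conclude
  have hv : v ∈ S (N - 1) := by
    obtain ⟨f, hf, hf'⟩ := hspan (v * (y : R) ^ m)
    have h21 : v = E y z (-(m : ℤ)) 0 * aeval (y : R) f := by
      rw [← hf', mul_comm v, ← mul_assoc, E_mul_left]
      rw [neg_add_cancel, E_zero, one_mul]
    rw [h21]
    apply aeval_mem (S (N - 1)) _ _ (N - 1) _ f hf
    intro t ht
    rw [E_mul_left, neg_add_eq_sub]
    apply key (N - 1) (by omega) le_rfl t (by omega) ht
  -- coefficients
  have hset : π '' {s | s ≤ N - 1} = Set.range (fun s : Fin (N - 1 + 1) => π s) := by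
    ext x
    constructor
    · rintro ⟨s, hs, rfl⟩
      exact ⟨⟨s, Nat.lt_succ_of_le hs⟩, rfl⟩
    · rintro ⟨s, rfl⟩
      exact ⟨s, Nat.le_of_lt_succ s.2, rfl⟩
  have hv2 : v ∈ Submodule.span (ZMod p) (Set.range (fun s : Fin (N - 1 + 1) => π s)) := by
    rw [← hset]; exact hv
  rw [Submodule.mem_span_range_iff_exists_fun] at hv2
  obtain ⟨c, hc⟩ := hv2
  refine ⟨fun s => if h : s < N - 1 + 1 then c ⟨s, h⟩ else 0, ?_⟩
  rw [← hc, Finset.sum_range]
  apply Finset.sum_congr rfl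
  intro s _
  have h22 : (if h : (s : ℕ) < N - 1 + 1 then c ⟨s, h⟩ else 0) = c s := dif_pos s.2
  change c s • π s = (if h : (s : ℕ) < N - 1 + 1 then c ⟨s, h⟩ else 0) • π s
  rw [h22]

end span

end Pool.Agent.MP_f6404a_co
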