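import Mathlib

set_option autoImplicit false

namespace Pool.Agent.MP_f6404a_co

/-- The admissible moves. -/
def IsMove (a b : ℤ) : Prop :=
  |a| ≤ 1 ∧ |b| ≤ 1 ∧ |a + b| ≤ 1

theorem lip (f : ℕ → ℤ) (T : ℕ) (h : ∀ s, s < T → |f (s + 1) - f s| ≤ 1) (s t : ℕ) (hst : s ≤ t)
    (htT : t ≤ T) : |f t - f s| ≤ (t : ℤ) - s := by
  induction t, hst using Nat.le_induction with
  | base => simp
  | succ n hn ih =>
    have h1 := h n (by omega)
    have h2 := ih (by omega)
    rw [abs_le] at h1 h2 ⊢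
    push_cast
    constructor <;> linarith [h1.1, h1.2, h2.1, h2.2]

theorem order_case (f g h : ℕ → ℤ) (T : ℕ) (hsum : ∀ s, f s + g s + h s = 0) (f0 : f 0 = 0)
    (Lf : ∀ s, s < T → |f (s + 1) - f s| ≤ 1) (Lh : ∀ s, s < T → |h (s + 1) - h s| ≤ 1)
    (s1 s2 s3 : ℕ) (h12 : s1 ≤ s2) (h23 : s2 ≤ s3) (h3 : s3 ≤ T) :
    f s1 + (f s1 + g s2 + h s3) + (h s3 - h T) ≤ T := by
  have e1 := lip f T Lf 0 s1 (Nat.zero_le _) (by omega)
  have e2 := lip f T Lf s1 s2 h12 (by omega)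
  have e3 := lip h T Lh s2 s3 h23 (by omega)
  have e4 := lip h T Lh s3 T h3 le_rfl
  rw [abs_le] at e1 e2 e3 e4
  have e5 := hsum s2
  rw [f0] at e1
  push_cast at e1
  linarith [e1.2, e2.1, e3.2, e4.1]

theorem exists_max (f : ℕ → ℤ) (T : ℕ) (f0 : f 0 = 0) :
    ∃ s, s ≤ T ∧ 0 ≤ f s ∧ ∀ t, t ≤ T → f t ≤ f s := by
  obtain ⟨s, hs, hs'⟩ := Finset.exists_max_image (Finset.range (T + 1)) f ⟨0, by simp⟩
  refine ⟨s, by rw [Finset.mem_range] at hs; omega, ?_, ?_⟩
  · have := hs' 0 (by simp)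
    rwa [f0] at this
  · intro t ht
    exact hs' t (by rw [Finset.mem_range]; omega)

/-- The combinatorial heart: an efficient path has one direction with small initial maximum and
another one with small final descent. -/
theorem path_cases (P Q : ℕ → ℤ) (T : ℕ) (P0 : P 0 = 0) (Q0 : Q 0 = 0)
    (hm : ∀ s, s < T → IsMove (P (s + 1) - P s) (Q (s + 1) - Q s)) :
    ∃ A0 A1 A2 D0 D1 D2 : ℕ, (P T = (D0 : ℤ) - A0) ∧ (Q T = (D1 : ℤ) - A1) ∧
      (P T + Q T = (A2 : ℤ) - D2) ∧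
      (∀ s, s ≤ T → -(A0 : ℤ) ≤ P s ∧ -(A1 : ℤ) ≤ Q s ∧ P s + Q s ≤ A2) ∧
      ((A0 + A1 + A2 + A0 + D1 ≤ T) ∨ (A0 + A1 + A2 + A0 + D2 ≤ T) ∨
       (A0 + A1 + A2 + A1 + D0 ≤ T) ∨ (A0 + A1 + A2 + A1 + D2 ≤ T) ∨
       (A0 + A1 + A2 + A2 + D0 ≤ T) ∨ (A0 + A1 + A2 + A2 + D1 ≤ T)) := by
  set f : ℕ → ℤ := fun s => -P s with hf
  set g : ℕ → ℤ := fun s => -Q s with hg
  set h : ℕ → ℤ := fun s => P s + Q s with hh
  have f0 : f 0 = 0 := by simp [hf, P0]
  have g0 : g 0 = 0 := by simp [hg, Q0]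
  have h0 : h 0 = 0 := by simp [hh, P0, Q0]
  have Lf : ∀ s, s < T → |f (s + 1) - f s| ≤ 1 := by
    intro s hs
    have := (hm s hs).1
    simp only [hf]
    rw [abs_le] at this ⊢
    constructor <;> linarith [this.1, this.2]
  have Lg : ∀ s, s < T → |g (s + 1) - g s| ≤ 1 := by
    intro s hs
    have := (hm s hs).2.1
    simp only [hg]
    rw [abs_le] at this ⊢
    constructor <;> linarith [this.1, this.2]
  have Lh : ∀ s, s < T → |h (s + 1) - h s| ≤ 1 := by
    intro s hs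
    have := (hm s hs).2.2
    simp only [hh]
    rw [abs_le] at this ⊢
    constructor <;> linarith [this.1, this.2]
  obtain ⟨s0, hs0, hs0', hs0''⟩ := exists_max f T f0
  obtain ⟨s1, hs1, hs1', hs1''⟩ := exists_max g T g0
  obtain ⟨s2, hs2, hs2', hs2''⟩ := exists_max h T h0
  have d0 : 0 ≤ f s0 - f T := by have := hs0'' T le_rfl; linarith
  have d1 : 0 ≤ g s1 - g T := by have := hs1'' T le_rfl; linarith
  have d2 : 0 ≤ h s2 - h T := by have := hs2'' T le_rfl; linarith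
  have c0 : (((f s0).toNat : ℕ) : ℤ) = f s0 := Int.toNat_of_nonneg hs0'
  have c1 : (((g s1).toNat : ℕ) : ℤ) = g s1 := Int.toNat_of_nonneg hs1'
  have c2 : (((h s2).toNat : ℕ) : ℤ) = h s2 := Int.toNat_of_nonneg hs2'
  have c3 : (((f s0 - f T).toNat : ℕ) : ℤ) = f s0 - f T := Int.toNat_of_nonneg d0
  have c4 : (((g s1 - g T).toNat : ℕ) : ℤ) = g s1 - g T := Int.toNat_of_nonneg d1
  have c5 : (((h s2 - h T).toNat : ℕ) : ℤ) = h s2 - h T := Int.toNat_of_nonneg d2
  refine ⟨(f s0).toNat, (g s1).toNat, (h s2).toNat, (f s0 - f T).toNat, (g s1 - g T).toNat,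
    (h s2 - h T).toNat, ?_, ?_, ?_, ?_, ?_⟩
  · rw [c0, c3]; simp only [hf]; ring
  · rw [c1, c4]; simp only [hg]; ring
  · rw [c2, c5]; simp only [hh]; ring
  · intro s hs
    rw [c0, c1, c2]
    have e0 := hs0'' s hs
    have e1 := hs1'' s hs
    have e2 := hs2'' s hs
    refine ⟨?_, ?_, ?_⟩
    · have : f s = -P s := rfl
      linarith
    · have : g s = -Q s := rfl
      linarith
    · exact e2
  · have s012 : ∀ s, f s + g s + h s = 0 := fun s => by simp only [hf, hg, hh]; ring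
    have s021 : ∀ s, f s + h s + g s = 0 := fun s => by simp only [hf, hg, hh]; ring
    have s102 : ∀ s, g s + f s + h s = 0 := fun s => by simp only [hf, hg, hh]; ring
    have s120 : ∀ s, g s + h s + f s = 0 := fun s => by simp only [hf, hg, hh]; ring
    have s201 : ∀ s, h s + f s + g s = 0 := fun s => by simp only [hf, hg, hh]; ring
    have s210 : ∀ s, h s + g s + f s = 0 := fun s => by simp only [hf, hg, hh]; ring
    rcases le_total s0 s1 with a | a <;> rcases le_total s1 s2 with b | b <;>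
      rcases le_total s0 s2 with c | c
    · -- s0 ≤ s1 ≤ s2
      have := order_case f g h T s012 f0 Lf Lh s0 s1 s2 a b hs2
      right; left; omega
    · have := order_case f g h T s012 f0 Lf Lh s0 s1 s2 a b hs2
      right; left; omega
    · -- s0 ≤ s2 ≤ s1
      have := order_case f h g T s021 f0 Lf Lg s0 s2 s1 c b hs1
      left; omega
    · -- s2 ≤ s0 ≤ s1
      have := order_case h f g T s201 h0 Lh Lg s2 s0 s1 c a hs1
      right; right; right; right; right; omega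
    · -- s1 ≤ s0 ≤ s2
      have := order_case g f h T s102 g0 Lg Lh s1 s0 s2 a c hs2
      right; right; right; left; omega
    · -- s1 ≤ s2 ≤ s0
      have := order_case g h f T s120 g0 Lg Lf s1 s2 s0 b c hs0
      right; right; left; omega
    · -- s2 ≤ s1 ≤ s0
      have := order_case h g f T s210 h0 Lh Lf s2 s1 s0 b a hs0
      right; right; right; right; left; omega
    · have := order_case h g f T s210 h0 Lh Lf s2 s1 s0 b a hs0
      right; right; right; right; left; omega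

end Pool.Agent.MP_f6404a_co
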