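import Pool.Agent.Lib.MP_f6404a_co.Upper

set_option autoImplicit false

namespace Pool.Agent.MP_f6404a_co

open Polynomial

section count

variable (p : ℕ) [Fact p.Prime] {R : Type} [CommRing R] [Algebra (ZMod p) R]
variable {N L : ℕ} [NeZero N] (y z : Rˣ)

open Classical in
/-- finset version of `Lset` -/
noncomputable def LF (A : ℕ × ℕ × ℕ) : Finset R :=
  (Lset_finite_card (p := p) y z A.1 A.2.1 A.2.2).1.toFinset

omit [NeZero N] in
theorem mem_LF (A : ℕ × ℕ × ℕ) (v : R) : v ∈ LF p y z A ↔ v ∈ Lset p y z A.1 A.2.1 A.2.2 := by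
  unfold LF
  rw [Set.Finite.mem_toFinset]

omit [NeZero N] in
theorem card_LF (A : ℕ × ℕ × ℕ) : (LF p y z A).card ≤ p ^ (A.1 + A.2.1 + A.2.2 + 1) := by
  unfold LF
  rw [← Set.ncard_eq_toFinset_card _ (Lset_finite_card (p := p) y z A.1 A.2.1 A.2.2).1]
  exact (Lset_finite_card (p := p) y z A.1 A.2.1 A.2.2).2

/-- parameters -/
def Q0 (T : ℕ) : Finset (ℕ × ℕ × ℕ) :=
  (Finset.range (T + 1) ×ˢ Finset.range (T + 1) ×ˢ Finset.range (T + 1)).filter
    (fun q => 2 * q.1 + q.2.1 + q.2.2 ≤ T)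

open Classical in
/-- the covering sets -/
noncomputable def cov (T : ℕ) (A : ℕ × ℕ × ℕ → ℕ × ℕ × ℕ)
    (x : ℕ × ℕ × ℕ → ZMod N → ZMod N × ZMod N) : Finset (R × ZMod N × ZMod N) :=
  (Q0 T).biUnion fun q => Finset.univ.biUnion fun k => (LF p y z (A q)).image fun v => (v, x q k)

theorem card_cov (T : ℕ) (A : ℕ × ℕ × ℕ → ℕ × ℕ × ℕ)
    (x : ℕ × ℕ × ℕ → ZMod N → ZMod N × ZMod N)
    (hA : ∀ q ∈ Q0 T, (A q).1 + (A q).2.1 + (A q).2.2 = T - q.1 - q.2.1) :
    ((cov p y z T A x).card : ℝ) ≤ 4 * (T + 1) * N * (p : ℝ) ^ (T + 1) := by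
  classical
  have hp : 2 ≤ p := (Fact.out : p.Prime).two_le
  have h1 : (cov p y z T A x).card ≤ ∑ q ∈ Q0 T, N * p ^ (T - q.1 - q.2.1 + 1) := by
    unfold cov
    refine Finset.card_biUnion_le.trans (Finset.sum_le_sum fun q hq => ?_)
    refine Finset.card_biUnion_le.trans ?_
    have h2 : ∀ k ∈ (Finset.univ : Finset (ZMod N)),
        ((LF p y z (A q)).image fun v => (v, x q k)).card ≤ p ^ (T - q.1 - q.2.1 + 1) := by
      intro k _
      refine Finset.card_image_le.trans ?_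
      have := card_LF p y z (A q)
      rwa [hA q hq] at this
    refine (Finset.sum_le_sum h2).trans ?_
    rw [Finset.sum_const, Finset.card_univ, ZMod.card, smul_eq_mul]
  have h3 : ((cov p y z T A x).card : ℝ) ≤
      ∑ q ∈ Q0 T, (N : ℝ) * (p : ℝ) ^ (T - q.1 - q.2.1 + 1) := by
    exact_mod_cast h1
  refine h3.trans ?_
  have h4 : ∀ q ∈ Q0 T, (N : ℝ) * (p : ℝ) ^ (T - q.1 - q.2.1 + 1) ≤
      (N : ℝ) * (p : ℝ) ^ (T + 1) * ((1 / 2) ^ q.1 * (1 / 2) ^ q.2.1) := by
    intro q hq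
    rw [Q0, Finset.mem_filter] at hq
    have hq2 := hq.2
    have h5 : (p : ℝ) ^ (T + 1) = (p : ℝ) ^ (T - q.1 - q.2.1 + 1) * (p : ℝ) ^ (q.1 + q.2.1) := by
      rw [← pow_add]
      congr 1
      omega
    rw [h5, mul_assoc, mul_assoc]
    apply mul_le_mul_of_nonneg_left _ (Nat.cast_nonneg _)
    have h6 : (1 : ℝ) ≤ (p : ℝ) ^ (q.1 + q.2.1) * ((1 / 2) ^ q.1 * (1 / 2) ^ q.2.1) := by
      rw [← pow_add, ← mul_pow]
      apply one_le_pow₀
      have : (2 : ℝ) ≤ p := by exact_mod_cast hp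
      linarith
    calc (p : ℝ) ^ (T - q.1 - q.2.1 + 1) = (p : ℝ) ^ (T - q.1 - q.2.1 + 1) * 1 := by ring
      _ ≤ _ := mul_le_mul_of_nonneg_left h6 (by positivity)
  refine (Finset.sum_le_sum h4).trans ?_
  have h7 : ∑ q ∈ Q0 T, (N : ℝ) * (p : ℝ) ^ (T + 1) * ((1 / 2) ^ q.1 * (1 / 2) ^ q.2.1) ≤
      ∑ q ∈ Finset.range (T + 1) ×ˢ Finset.range (T + 1) ×ˢ Finset.range (T + 1),
        (N : ℝ) * (p : ℝ) ^ (T + 1) * ((1 / 2) ^ q.1 * (1 / 2) ^ q.2.1) := by
    apply Finset.sum_le_sum_of_subset_of_nonneg (Finset.filter_subset _ _)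
    intro q _ _
    positivity
  refine h7.trans ?_
  rw [← Finset.mul_sum, Finset.sum_product]
  have h8 : ∀ a ∈ Finset.range (T + 1), ∑ q ∈ Finset.range (T + 1) ×ˢ Finset.range (T + 1),
      ((1 / 2 : ℝ) ^ a * (1 / 2) ^ q.1) ≤ (1 / 2 : ℝ) ^ a * (2 * (T + 1)) := by
    intro a _
    rw [← Finset.mul_sum, Finset.sum_product]
    apply mul_le_mul_of_nonneg_left _ (by positivity)
    simp only [Finset.sum_const, Finset.card_range, nsmul_eq_mul]
    rw [← Finset.mul_sum]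
    have := sum_geometric_two_le (T + 1)
    push_cast
    nlinarith
  have h9 : ∑ a ∈ Finset.range (T + 1), ∑ q ∈ Finset.range (T + 1) ×ˢ Finset.range (T + 1),
      ((1 / 2 : ℝ) ^ a * (1 / 2) ^ q.1) ≤ 4 * (T + 1) := by
    refine (Finset.sum_le_sum h8).trans ?_
    rw [← Finset.sum_mul]
    have := sum_geometric_two_le (T + 1)
    have h10 : (0 : ℝ) ≤ 2 * (T + 1) := by positivity
    nlinarith
  calc (N : ℝ) * (p : ℝ) ^ (T + 1) * ∑ a ∈ Finset.range (T + 1),
        ∑ q ∈ Finset.range (T + 1) ×ˢ Finset.range (T + 1), ((1 / 2 : ℝ) ^ a * (1 / 2) ^ q.1)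
      ≤ (N : ℝ) * (p : ℝ) ^ (T + 1) * (4 * (T + 1)) :=
        mul_le_mul_of_nonneg_left h9 (by positivity)
    _ = _ := by ring

variable (N)

/-- positions reached within `T` steps, forgetting the cycle coordinate -/
def BT (L T : ℕ) : Set (R × ZMod N × ZMod N) :=
  {x | ∃ k, Reach (St p y z N L) (0, 0, 0, 0) T (x.1, x.2.1, x.2.2, k)}

theorem ball_count (hy : y ^ N = 1) (hz : z ^ N = 1) (hyz : (y : R) + z = 2) (L T : ℕ) :
    (BT p N y z L T).Finite ∧
    ((BT p N y z L T).ncard : ℝ) ≤ 24 * (T + 1) * N * (p : ℝ) ^ (T + 1) := by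
  classical
  set C1 := cov p (N := N) y z T (fun q => (q.1, q.2.2, T - 2 * q.1 - q.2.1 - q.2.2))
    (fun q k => (k, (((q.2.1 : ℤ) - q.2.2 : ℤ) : ZMod N))) with hC1
  set C2 := cov p (N := N) y z T (fun q => (q.1, T - 2 * q.1 - q.2.1 - q.2.2, q.2.2))
    (fun q k => (k, (((q.2.2 : ℤ) - q.2.1 : ℤ) : ZMod N) - k)) with hC2
  set C3 := cov p (N := N) y z T (fun q => (q.2.2, q.1, T - 2 * q.1 - q.2.1 - q.2.2))
    (fun q k => ((((q.2.1 : ℤ) - q.2.2 : ℤ) : ZMod N), k)) with hC3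
  set C4 := cov p (N := N) y z T (fun q => (T - 2 * q.1 - q.2.1 - q.2.2, q.1, q.2.2))
    (fun q k => ((((q.2.2 : ℤ) - q.2.1 : ℤ) : ZMod N) - k, k)) with hC4
  set C5 := cov p (N := N) y z T (fun q => (q.2.2, T - 2 * q.1 - q.2.1 - q.2.2, q.1))
    (fun q k => ((((q.2.1 : ℤ) - q.2.2 : ℤ) : ZMod N), k)) with hC5
  set C6 := cov p (N := N) y z T (fun q => (T - 2 * q.1 - q.2.1 - q.2.2, q.2.2, q.1))
    (fun q k => (k, (((q.2.1 : ℤ) - q.2.2 : ℤ) : ZMod N))) with hC6
  have hsub : BT p N y z L T ⊆ ((C1 ∪ C2 ∪ C3 ∪ C4 ∪ C5 ∪ C6 : Finset _) :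
      Set (R × ZMod N × ZMod N)) := by
    rintro ⟨v, i, j⟩ ⟨k, hk⟩
    obtain ⟨P, Q, P0, Qz, hm, hP, hQ, c, hc⟩ := path_of_reach y z hy hz T _ hk
    obtain ⟨A0, A1, A2, D0, D1, D2, e0, e1, e2, hbox, hcases⟩ := path_cases P Q T P0 Qz hm
    simp only at hP hQ hc
    have hvL : v ∈ Lset p y z A0 A1 A2 := by
      rw [hc]
      apply Lset_sum
      intro s hs
      rw [Finset.mem_range] at hs
      obtain ⟨b0, b1, b2⟩ := hbox s (by omega)
      exact E_mem_Lset y z hyz _ _ b0 b1 b2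
    have memcov : ∀ (A : ℕ × ℕ × ℕ → ℕ × ℕ × ℕ) (x : ℕ × ℕ × ℕ → ZMod N → ZMod N × ZMod N)
        (q : ℕ × ℕ × ℕ) (kk : ZMod N), 2 * q.1 + q.2.1 + q.2.2 ≤ T →
        v ∈ Lset p y z (A q).1 (A q).2.1 (A q).2.2 → x q kk = (i, j) →
        (v, i, j) ∈ cov p (N := N) y z T A x := by
      intro A x q kk hq hv hx
      unfold cov
      rw [Finset.mem_biUnion]
      refine ⟨q, ?_, ?_⟩
      · rw [Q0, Finset.mem_filter, Finset.mem_product, Finset.mem_product, Finset.mem_range,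
          Finset.mem_range, Finset.mem_range]
        exact ⟨⟨by omega, by omega, by omega⟩, hq⟩
      · rw [Finset.mem_biUnion]
        refine ⟨kk, Finset.mem_univ _, ?_⟩
        rw [Finset.mem_image]
        exact ⟨v, (mem_LF p y z _ v).2 hv, by rw [hx]⟩
    have hij : i + j = (((A2 : ℤ) - D2 : ℤ) : ZMod N) := by
      rw [hP, hQ, ← Int.cast_add, e2]
    have hi : i = (((D0 : ℤ) - A0 : ℤ) : ZMod N) := by rw [hP, e0]
    have hj : j = (((D1 : ℤ) - A1 : ℤ) : ZMod N) := by rw [hQ, e1]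
    rw [Finset.mem_coe]
    simp only [Finset.mem_union]
    rcases hcases with h | h | h | h | h | h
    · -- β = 0, α = 1
      left; left; left; left; left
      apply memcov _ _ (A0, D1, A1) i (by simp only; omega)
      · simp only
        obtain ⟨t, ht⟩ : ∃ t, T - 2 * A0 - D1 - A1 = A2 + t := ⟨T - 2 * A0 - D1 - A1 - A2, by omega⟩
        rw [ht]
        exact Lset_mono2 y z t hvL
      · simp only
        rw [hj]
    · -- β = 0, α = 2
      left; left; left; left; right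
      apply memcov _ _ (A0, D2, A2) i (by simp only; omega)
      · simp only
        obtain ⟨t, ht⟩ : ∃ t, T - 2 * A0 - D2 - A2 = A1 + t := ⟨T - 2 * A0 - D2 - A2 - A1, by omega⟩
        rw [ht]
        exact Lset_mono1 y z hyz t hvL
      · simp only
        rw [← hij, add_sub_cancel_left]
    · -- β = 1, α = 0
      left; left; left; right
      apply memcov _ _ (A1, D0, A0) j (by simp only; omega)
      · simp only
        obtain ⟨t, ht⟩ : ∃ t, T - 2 * A1 - D0 - A0 = A2 + t := ⟨T - 2 * A1 - D0 - A0 - A2, by omega⟩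
        rw [ht]
        exact Lset_mono2 y z t hvL
      · simp only
        rw [← hi]
    · -- β = 1, α = 2
      left; left; right
      apply memcov _ _ (A1, D2, A2) j (by simp only; omega)
      · simp only
        obtain ⟨t, ht⟩ : ∃ t, T - 2 * A1 - D2 - A2 = A0 + t := ⟨T - 2 * A1 - D2 - A2 - A0, by omega⟩
        rw [ht]
        exact Lset_mono0 y z t hvL
      · simp only
        rw [← hij, add_sub_cancel_right]
    · -- β = 2, α = 0
      left; right
      apply memcov _ _ (A2, D0, A0) j (by simp only; omega)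
      · simp only
        obtain ⟨t, ht⟩ : ∃ t, T - 2 * A2 - D0 - A0 = A1 + t := ⟨T - 2 * A2 - D0 - A0 - A1, by omega⟩
        rw [ht]
        exact Lset_mono1 y z hyz t hvL
      · simp only
        rw [← hi]
    · -- β = 2, α = 1
      right
      apply memcov _ _ (A2, D1, A1) i (by simp only; omega)
      · simp only
        obtain ⟨t, ht⟩ : ∃ t, T - 2 * A2 - D1 - A1 = A0 + t := ⟨T - 2 * A2 - D1 - A1 - A0, by omega⟩
        rw [ht]
        exact Lset_mono0 y z t hvL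
      · simp only
        rw [hj]
  refine ⟨(Finset.finite_toSet _).subset hsub, ?_⟩
  have hc := Set.ncard_le_ncard hsub (Finset.finite_toSet _)
  rw [Set.ncard_coe_finset] at hc
  have hu : (C1 ∪ C2 ∪ C3 ∪ C4 ∪ C5 ∪ C6).card ≤
      C1.card + C2.card + C3.card + C4.card + C5.card + C6.card := by
    refine (Finset.card_union_le _ _).trans (Nat.add_le_add_right ?_ _)
    refine (Finset.card_union_le _ _).trans (Nat.add_le_add_right ?_ _)
    refine (Finset.card_union_le _ _).trans (Nat.add_le_add_right ?_ _)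
    refine (Finset.card_union_le _ _).trans (Nat.add_le_add_right ?_ _)
    exact Finset.card_union_le _ _
  have hall : ((BT p N y z L T).ncard : ℝ) ≤
      C1.card + C2.card + C3.card + C4.card + C5.card + C6.card := by
    exact_mod_cast hc.trans hu
  have hq : ∀ q ∈ Q0 T, 2 * q.1 + q.2.1 + q.2.2 ≤ T := fun q hq => (Finset.mem_filter.1 hq).2
  have k1 : (C1.card : ℝ) ≤ 4 * (T + 1) * N * (p : ℝ) ^ (T + 1) :=
    card_cov p y z T _ _ (fun q h => by have := hq q h; simp only; omega)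
  have k2 : (C2.card : ℝ) ≤ 4 * (T + 1) * N * (p : ℝ) ^ (T + 1) :=
    card_cov p y z T _ _ (fun q h => by have := hq q h; simp only; omega)
  have k3 : (C3.card : ℝ) ≤ 4 * (T + 1) * N * (p : ℝ) ^ (T + 1) :=
    card_cov p y z T _ _ (fun q h => by have := hq q h; simp only; omega)
  have k4 : (C4.card : ℝ) ≤ 4 * (T + 1) * N * (p : ℝ) ^ (T + 1) :=
    card_cov p y z T _ _ (fun q h => by have := hq q h; simp only; omega)
  have k5 : (C5.card : ℝ) ≤ 4 * (T + 1) * N * (p : ℝ) ^ (T + 1) :=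
    card_cov p y z T _ _ (fun q h => by have := hq q h; simp only; omega)
  have k6 : (C6.card : ℝ) ≤ 4 * (T + 1) * N * (p : ℝ) ^ (T + 1) :=
    card_cov p y z T _ _ (fun q h => by have := hq q h; simp only; omega)
  linarith

end count

end Pool.Agent.MP_f6404a_co
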