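import Pool.Agent.Lib.MP_f6404a_co.Count

set_option autoImplicit false

namespace Pool.Agent.MP_f6404a_co

open Polynomial

section cards

variable {R : Type} [Finite R] {N L : ℕ} [NeZero N] [NeZero L]

theorem card_slice1 : {x : R × ZMod N × ZMod N | x.2.1 = 0}.ncard ≤ Nat.card R * N := by
  have h : {x : R × ZMod N × ZMod N | x.2.1 = 0} ⊆
      (fun t : R × ZMod N => (t.1, (0 : ZMod N), t.2)) '' Set.univ := by
    rintro ⟨r, i, j⟩ hi
    have hi' : i = 0 := hi
    subst hi'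
    exact ⟨(r, j), Set.mem_univ _, rfl⟩
  refine (Set.ncard_le_ncard h (Set.toFinite _)).trans ?_
  refine (Set.ncard_image_le (Set.toFinite _)).trans ?_
  rw [Set.ncard_univ, Nat.card_prod, Nat.card_zmod]

theorem card_slice2 : {x : R × ZMod N × ZMod N | x.2.2 = 0}.ncard ≤ Nat.card R * N := by
  have h : {x : R × ZMod N × ZMod N | x.2.2 = 0} ⊆
      (fun t : R × ZMod N => (t.1, t.2, (0 : ZMod N))) '' Set.univ := by
    rintro ⟨r, i, j⟩ hi
    have hi' : j = 0 := hi
    subst hi'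
    exact ⟨(r, i), Set.mem_univ _, rfl⟩
  refine (Set.ncard_le_ncard h (Set.toFinite _)).trans ?_
  refine (Set.ncard_image_le (Set.toFinite _)).trans ?_
  rw [Set.ncard_univ, Nat.card_prod, Nat.card_zmod]

theorem card_bad1 (T0 : Finset (ZMod N)) :
    {w : HV R N L | w.2.1 ∈ T0}.ncard ≤ T0.card * (Nat.card R * (N * L)) := by
  have h : {w : HV R N L | w.2.1 ∈ T0} ⊆
      (fun t : ZMod N × (R × (ZMod N × ZMod L)) => (t.2.1, t.1, t.2.2.1, t.2.2.2)) ''
        ((T0 : Set (ZMod N)) ×ˢ Set.univ) := by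
    rintro ⟨r, i, j, k⟩ hi
    exact ⟨(i, r, j, k), ⟨hi, Set.mem_univ _⟩, rfl⟩
  refine (Set.ncard_le_ncard h (Set.toFinite _)).trans ?_
  refine (Set.ncard_image_le (Set.toFinite _)).trans ?_
  rw [Set.ncard_prod, Set.ncard_univ, Nat.card_prod, Nat.card_prod, Nat.card_zmod, Nat.card_zmod,
    Set.ncard_coe_finset]

theorem card_bad2 (T0 : Finset (ZMod N)) :
    {w : HV R N L | w.2.2.1 ∈ T0}.ncard ≤ T0.card * (Nat.card R * (N * L)) := by
  have h : {w : HV R N L | w.2.2.1 ∈ T0} ⊆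
      (fun t : ZMod N × (R × (ZMod N × ZMod L)) => (t.2.1, t.2.2.1, t.1, t.2.2.2)) ''
        ((T0 : Set (ZMod N)) ×ˢ Set.univ) := by
    rintro ⟨r, i, j, k⟩ hi
    exact ⟨(j, r, i, k), ⟨hi, Set.mem_univ _⟩, rfl⟩
  refine (Set.ncard_le_ncard h (Set.toFinite _)).trans ?_
  refine (Set.ncard_image_le (Set.toFinite _)).trans ?_
  rw [Set.ncard_prod, Set.ncard_univ, Nat.card_prod, Nat.card_prod, Nat.card_zmod, Nat.card_zmod,
    Set.ncard_coe_finset]

theorem card_bad3 (T1 : Finset (ZMod L)) :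
    {w : HV R N L | w.2.2.2 ∈ T1}.ncard ≤ T1.card * (Nat.card R * (N * N)) := by
  have h : {w : HV R N L | w.2.2.2 ∈ T1} ⊆
      (fun t : ZMod L × (R × (ZMod N × ZMod N)) => (t.2.1, t.2.2.1, t.2.2.2, t.1)) ''
        ((T1 : Set (ZMod L)) ×ˢ Set.univ) := by
    rintro ⟨r, i, j, k⟩ hi
    exact ⟨(k, r, i, j), ⟨hi, Set.mem_univ _⟩, rfl⟩
  refine (Set.ncard_le_ncard h (Set.toFinite _)).trans ?_
  refine (Set.ncard_image_le (Set.toFinite _)).trans ?_
  rw [Set.ncard_prod, Set.ncard_univ, Nat.card_prod, Nat.card_prod, Nat.card_zmod,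
    Set.ncard_coe_finset]

omit [NeZero N] in
theorem card_K (d : ℕ) (hd : 2 * d < L) :
    2 * d + 1 ≤ {k : ZMod L | k.valMinAbs.natAbs ≤ d}.ncard := by
  classical
  let F : ℤ → ZMod L := fun a => (a : ZMod L)
  have hinj : Set.InjOn F (Finset.Icc (-(d : ℤ)) d : Finset ℤ) := by
    intro a ha b hb hab
    rw [Finset.mem_coe, Finset.mem_Icc] at ha hb
    have h1 : ((a : ℤ) : ZMod L) = ((b : ℤ) : ZMod L) := hab
    rw [ZMod.intCast_eq_intCast_iff_dvd_sub] at h1
    obtain ⟨c, hc⟩ := h1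
    have hc0 : c = 0 := by
      by_contra hne
      have h2 : (L : ℤ) ≤ |b - a| := by
        rw [hc, abs_mul, Nat.abs_cast]
        have h3 : 1 ≤ |c| := Int.one_le_abs hne
        nlinarith [Nat.cast_nonneg (α := ℤ) L]
      have h3 : |b - a| ≤ 2 * d := by
        rw [abs_le]; constructor <;> linarith [ha.1, ha.2, hb.1, hb.2]
      have h4 : (2 * d : ℤ) < L := by exact_mod_cast hd
      linarith
    rw [hc0, mul_zero] at hc
    linarith
  have hsub : ((Finset.Icc (-(d : ℤ)) d).image F : Set (ZMod L)) ⊆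
      {k : ZMod L | k.valMinAbs.natAbs ≤ d} := by
    intro k hk
    rw [Finset.coe_image] at hk
    obtain ⟨a, ha, rfl⟩ := hk
    rw [Finset.mem_coe, Finset.mem_Icc] at ha
    have h5 : ((a : ZMod L).valMinAbs).natAbs ≤ a.natAbs := by
      by_contra hcon
      push Not at hcon
      have h6 : ((a : ZMod L).valMinAbs) = a := by
        have h7 := (ZMod.valMinAbs_spec (a : ZMod L) a).2
        apply h7
        refine ⟨rfl, ?_⟩
        rw [Set.mem_Ioc]
        have h8 : (2 * d : ℤ) < L := by exact_mod_cast hd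
        constructor <;> linarith [ha.1, ha.2]
      rw [h6] at hcon
      exact lt_irrefl _ hcon
    have h9 : a.natAbs ≤ d := by omega
    exact h5.trans h9
  have hcard : ((Finset.Icc (-(d : ℤ)) d).image F).card = 2 * d + 1 := by
    rw [Finset.card_image_of_injOn hinj, Int.card_Icc]
    omega
  rw [← hcard, ← Set.ncard_coe_finset]
  exact Set.ncard_le_ncard hsub (Set.toFinite _)

omit [NeZero N] [NeZero L] in
theorem mem_of_natAbs_eq (k : ZMod L) (d : ℕ) (h : k.valMinAbs.natAbs = d) :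
    k ∈ ({((d : ℤ) : ZMod L), ((-(d : ℤ) : ℤ) : ZMod L)} : Finset (ZMod L)) := by
  rw [Finset.mem_insert, Finset.mem_singleton]
  have h1 := ZMod.coe_valMinAbs k
  rcases Int.natAbs_eq k.valMinAbs with h2 | h2
  · left
    rw [← h1, h2, h]
  · right
    rw [← h1, h2, h]

end cards

section numeric

theorem numeric1 (q N K d X B S : ℝ) (hq : 0 ≤ q) (hN : 1018081 ≤ N) (hd : d = N - 1)
    (hK1 : K ≤ 19 / 10 * d + 1)
    (hX : q * N * N ≤ X + q * N + q * N + B) (hB : B ≤ 24 * N * N * (q / 1009))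
    (hS : X * (2 * d + 1) ≤ S) : q * (N * (N * (2 * K))) ≤ 2 * S := by
  have hN0 : 0 ≤ N := by linarith
  have h1 : q * N * N * (97 / 100) ≤ X := by
    have h2 : q * N * 2 ≤ q * N * (N / 1000) :=
      mul_le_mul_of_nonneg_left (by linarith) (mul_nonneg hq hN0)
    have h3 : 0 ≤ q * N * N := mul_nonneg (mul_nonneg hq hN0) hN0
    have h4 : B ≤ q * N * N * (24 / 1009) := by
      calc B ≤ 24 * N * N * (q / 1009) := hB
        _ = q * N * N * (24 / 1009) := by ring
    nlinarith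
  have h5 : q * N * N * (97 / 100) * (2 * d + 1) ≤ S :=
    (mul_le_mul_of_nonneg_right h1 (by linarith)).trans hS
  have h6 : q * (N * (N * (2 * K))) = 2 * (q * N * N * K) := by ring
  rw [h6]
  have h7 : q * N * N * K ≤ q * N * N * ((97 / 100) * (2 * d + 1)) := by
    apply mul_le_mul_of_nonneg_left _ (mul_nonneg (mul_nonneg hq hN0) hN0)
    linarith
  have h8 : q * N * N * ((97 / 100) * (2 * d + 1)) = q * N * N * (97 / 100) * (2 * d + 1) := by
    ring
  linarith

theorem numeric2 (q N K S Bd : ℝ) (hq : 0 ≤ q) (hN : 1018081 ≤ N)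
    (hK : 400 ≤ K) (hS : q * (N * (N * (2 * K))) ≤ 2 * S)
    (hB : Bd ≤ 3 * (q * (N * (2 * K))) + 3 * (q * (N * (2 * K))) + 2 * (q * (N * N))) :
    100 * Bd ≤ S := by
  have hN0 : 0 ≤ N := by linarith
  have hK0 : 0 ≤ K := by linarith
  have h1 : q * N * K * 1200 ≤ q * N * K * (N / 2) :=
    mul_le_mul_of_nonneg_left (by linarith) (mul_nonneg (mul_nonneg hq hN0) hK0)
  have h2 : q * N * N * 200 ≤ q * N * N * (K / 2) :=
    mul_le_mul_of_nonneg_left (by linarith) (mul_nonneg (mul_nonneg hq hN0) hN0)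
  nlinarith

end numeric

theorem two_ne' : (2 : ZMod 1009) ≠ 0 := by decide

section main

variable {R : Type} [CommRing R] [Finite R]

theorem main_good (hprime : Fact (Nat.Prime 1009)) [Algebra (ZMod 1009) R] (y z : Rˣ) (a : ℕ)
    (ha : 2 ≤ a) (hy : y ^ (1009 ^ a) = 1) (hz : z ^ (1009 ^ a) = 1) (hyz : (y : R) + z = 2)
    (hspan : ∀ v : R, ∃ f : (ZMod 1009)[X], f.natDegree ≤ 1009 ^ a - 1 ∧ v = aeval (y : R) f)
    (hcard : Nat.card R = 1009 ^ (1009 ^ a)) :
    ∃ (M d : ℕ) (G : SimpleGraph (Fin M)), a ≤ M ∧ Good (27 * 1009 ^ 2) G d := by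
  classical
  set N : ℕ := 1009 ^ a with hNdef
  have hNge : 1018081 ≤ N := by
    rw [hNdef]
    calc 1018081 = 1009 ^ 2 := by norm_num
      _ ≤ 1009 ^ a := Nat.pow_le_pow_right (by norm_num) ha
  have : NeZero N := ⟨by omega⟩
  set d : ℕ := N - 1 with hd
  set K : ℕ := 2 * d - d / 10 with hK
  set L : ℕ := 2 * K with hL
  have : NeZero L := ⟨by omega⟩
  have h2 : (2 : ZMod 1009) ≠ 0 := two_ne'
  set q : ℕ := 1009 ^ N with hq
  have hq' : Nat.card R = q := hcard
  set S : Set (HV R N L) := {w | Reach (St 1009 y z N L) (0, 0, 0, 0) d w ∧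
    ¬ Reach (St 1009 y z N L) (0, 0, 0, 0) (d - 1) w} with hS
  -- the ball
  obtain ⟨hBfin, hB⟩ := ball_count 1009 N y z hy hz hyz L (d - 1)
  set B := BT 1009 N y z L (d - 1) with hBdef
  set X : Set (R × ZMod N × ZMod N) := {x | x.2.1 ≠ 0 ∧ x.2.2 ≠ 0 ∧ x ∉ B} with hX
  have hXcard : q * N * N ≤ X.ncard + q * N + q * N + B.ncard := by
    have h3 : (Set.univ : Set (R × ZMod N × ZMod N)) ⊆ ((X ∪ {x | x.2.1 = 0}) ∪ {x | x.2.2 = 0}) ∪ B := by
      intro x _
      by_cases h4 : x.2.1 = 0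
      · exact Or.inl (Or.inl (Or.inr h4))
      · by_cases h5 : x.2.2 = 0
        · exact Or.inl (Or.inr h5)
        · by_cases h6 : x ∈ B
          · exact Or.inr h6
          · exact Or.inl (Or.inl (Or.inl ⟨h4, h5, h6⟩))
    have h4 := Set.ncard_le_ncard h3 (Set.toFinite _)
    rw [Set.ncard_univ, Nat.card_prod, Nat.card_prod, Nat.card_zmod, hq'] at h4
    have h5 := Set.ncard_union_le ((X ∪ {x | x.2.1 = 0}) ∪ {x | x.2.2 = 0}) B
    have h6 := Set.ncard_union_le (X ∪ {x | x.2.1 = 0}) {x : R × ZMod N × ZMod N | x.2.2 = 0}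
    have h7 := Set.ncard_union_le X {x : R × ZMod N × ZMod N | x.2.1 = 0}
    have h8 := card_slice1 (R := R) (N := N)
    have h9 := card_slice2 (R := R) (N := N)
    rw [hq'] at h8 h9
    have h10 : q * (N * N) = q * N * N := by ring
    omega
  have hSsub : (fun t : (R × ZMod N × ZMod N) × ZMod L => ((t.1.1, t.1.2.1, t.1.2.2, t.2) : HV R N L)) ''
      (X ×ˢ {k : ZMod L | k.valMinAbs.natAbs ≤ d}) ⊆ S := by
    rintro w ⟨⟨⟨r, i, j⟩, k⟩, ⟨⟨h3, h4, h5⟩, h6⟩, rfl⟩
    refine ⟨upper y z hy hz hyz h2 hspan _ (by omega) h3 h4 h6, ?_⟩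
    intro h7
    exact h5 ⟨k, h7⟩
  have hScard : X.ncard * (2 * d + 1) ≤ S.ncard := by
    have h3 := Set.ncard_le_ncard hSsub (Set.toFinite _)
    rw [Set.ncard_image_of_injective] at h3
    · rw [Set.ncard_prod] at h3
      refine le_trans ?_ h3
      apply Nat.mul_le_mul_left
      apply card_K
      omega
    · rintro ⟨⟨r, i, j⟩, k⟩ ⟨⟨r', i', j'⟩, k'⟩ h
      simp only [Prod.mk.injEq] at h ⊢
      exact ⟨⟨h.1, h.2.1, h.2.2.1⟩, h.2.2.2⟩
  have hBreal : (B.ncard : ℝ) ≤ 24 * N * N * ((q : ℝ) / 1009) := by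
    refine hB.trans ?_
    have h3 : (((d - 1 : ℕ) : ℝ) + 1) ≤ N := by
      have : d - 1 + 1 ≤ N := by omega
      exact_mod_cast this
    have h4 : ((1009 : ℕ) : ℝ) ^ (d - 1 + 1) = (q : ℝ) / 1009 := by
      rw [eq_div_iff (by norm_num), hq]
      push_cast
      rw [← pow_succ]
      congr 1
      omega
    rw [h4]
    have h5 : (0 : ℝ) ≤ (q : ℝ) / 1009 := by positivity
    have h6 : (0 : ℝ) ≤ N := Nat.cast_nonneg _
    have h7 : 24 * (((d - 1 : ℕ) : ℝ) + 1) * N ≤ 24 * N * N := by nlinarith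
    exact mul_le_mul_of_nonneg_right h7 h5
  have hdreal : (d : ℝ) = N - 1 := by
    rw [hd, Nat.cast_sub (by omega)]
    simp
  have hK1 : (K : ℝ) ≤ 19 / 10 * d + 1 := by
    have : 10 * K ≤ 19 * d + 10 := by omega
    have h3 : (10 * K : ℝ) ≤ 19 * d + 10 := by exact_mod_cast this
    linarith
  have hNreal : (1018081 : ℝ) ≤ N := by exact_mod_cast hNge
  have hmain : (q : ℝ) * (N * (N * (2 * K))) ≤ 2 * S.ncard := by
    apply numeric1 (q : ℝ) N K d X.ncard B.ncard S.ncard (Nat.cast_nonneg _) hNreal hdreal hK1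
    · exact_mod_cast hXcard
    · exact hBreal
    · exact_mod_cast hScard
  have hcardV : Nat.card (HV R N L) = q * (N * (N * (2 * K))) := by
    rw [Nat.card_prod, Nat.card_prod, Nat.card_prod, Nat.card_zmod, Nat.card_zmod, hq']
  -- the bad set
  set T0 : Finset (ZMod N) := {0, 1, -1} with hT0
  have hT0card : T0.card ≤ 3 := Finset.card_le_three
  set T1 : Finset (ZMod L) := {((d : ℤ) : ZMod L), ((-(d : ℤ) : ℤ) : ZMod L)} with hT1
  have hT1card : T1.card ≤ 2 := Finset.card_le_two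
  set Bad : Set (HV R N L) := ({w | w.2.1 ∈ T0} ∪ {w | w.2.2.1 ∈ T0}) ∪ {w | w.2.2.2 ∈ T1} with hBad
  have hBadcard : Bad.ncard ≤ 3 * (q * (N * (2 * K))) + 3 * (q * (N * (2 * K))) +
      2 * (q * (N * N)) := by
    have h3 : Bad.ncard ≤ ({w : HV R N L | w.2.1 ∈ T0} ∪ {w | w.2.2.1 ∈ T0}).ncard +
        {w : HV R N L | w.2.2.2 ∈ T1}.ncard :=
      Set.ncard_union_le ({w : HV R N L | w.2.1 ∈ T0} ∪ {w | w.2.2.1 ∈ T0})
        {w : HV R N L | w.2.2.2 ∈ T1}
    have h4 := Set.ncard_union_le {w : HV R N L | w.2.1 ∈ T0} {w : HV R N L | w.2.2.1 ∈ T0}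
    have h5 := card_bad1 (R := R) (L := L) T0
    have h6 := card_bad2 (R := R) (L := L) T0
    have h7 := card_bad3 (R := R) (N := N) T1
    rw [hq'] at h5 h6 h7
    have h8 : T0.card * (q * (N * L)) ≤ 3 * (q * (N * (2 * K))) := Nat.mul_le_mul_right _ hT0card
    have h9 : T1.card * (q * (N * N)) ≤ 2 * (q * (N * N)) := Nat.mul_le_mul_right _ hT1card
    omega
  have hBadmain : (100 : ℝ) * Bad.ncard ≤ S.ncard := by
    apply numeric2 (q : ℝ) N K S.ncard Bad.ncard (Nat.cast_nonneg _) hNreal _ hmain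
    · exact_mod_cast hBadcard
    · have : 400 ≤ K := by omega
      exact_mod_cast this
  obtain ⟨G, hG⟩ := good_transfer (St := St 1009 y z N L) (o := (0, 0, 0, 0))
    (St_refl y z) (St_symm y z) (reach_all y z hy hz hyz h2 hspan (by omega))
    (transitive y z hy hz) (27 * 1009 ^ 2) (deg_bound y z) d K (by omega) (by omega) (by omega)
    (by rw [hcardV]; exact_mod_cast hmain) Bad (by exact_mod_cast hBadmain)
    (by
      intro w hw hwS w' hw'
      obtain ⟨a1, b1, hab, c1, c2, e1, e2, e3, k, hk, e4⟩ := hw'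
      have hnot1 : w.2.1 ∉ T0 := fun h => hw (Or.inl (Or.inl h))
      have hnot2 : w.2.2.1 ∉ T0 := fun h => hw (Or.inl (Or.inr h))
      have hnot3 : w.2.2.2 ∉ T1 := fun h => hw (Or.inr h)
      have hcyc := reach_cycle (p := 1009) y z d w hwS.1
      have hne : w.2.2.2.valMinAbs.natAbs ≠ d := fun h => hnot3 (mem_of_natAbs_eq _ d h)
      have hshift : ∀ (i : ZMod N) (a1 : ℤ), |a1| ≤ 1 → i ∉ T0 → i + (a1 : ZMod N) ≠ 0 := by
        intro i a1 ha1 hi h
        rw [abs_le] at ha1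
        have h3 : a1 = -1 ∨ a1 = 0 ∨ a1 = 1 := by omega
        apply hi
        rw [hT0, Finset.mem_insert, Finset.mem_insert, Finset.mem_singleton]
        rcases h3 with rfl | rfl | rfl
        · right; left
          have := eq_neg_of_add_eq_zero_left h
          simpa using this
        · left; simpa using h
        · right; right
          have := eq_neg_of_add_eq_zero_left h
          simpa using this
      refine upper y z hy hz hyz h2 hspan w' (by omega) ?_ ?_ ?_
      · rw [e1]; exact hshift _ _ hab.1 hnot1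
      · rw [e2]; exact hshift _ _ hab.2.1 hnot2
      · have h8 : w'.2.2.2.valMinAbs.natAbs ≤ w.2.2.2.valMinAbs.natAbs + 1 := by
          have h9 : Reach (St 1009 y z N L) (0, 0, 0, 0) 1
              ((0, 0, 0, (k : ZMod L)) : HV R N L) := by
            refine ⟨(0, 0, 0, 0), rfl, 0, 0, by simp [IsMove], 0, 0, by simp, by simp, by simp, k,
              hk, by simp⟩
          have h10 := reach_cycle (p := 1009) y z 1 _ h9
          simp only at h10
          rw [e4]
          have h11 := ZMod.natAbs_valMinAbs_add_le w.2.2.2 (k : ZMod L)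
          have h12 := Int.natAbs_add_le w.2.2.2.valMinAbs (k : ZMod L).valMinAbs
          omega
        omega)
    (by
      refine ⟨(0, 0, 0, ((K : ℕ) : ZMod L)), ?_⟩
      intro h
      have h3 := reach_cycle (p := 1009) y z (K - 1) _ h
      simp only at h3
      have h4 : ((K : ℕ) : ZMod L).valMinAbs = K := by
        have h7 := (ZMod.valMinAbs_spec ((K : ℕ) : ZMod L) K).2
        apply h7
        refine ⟨by simp, ?_⟩
        rw [Set.mem_Ioc]
        have : 0 < K := by omega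
        constructor
        · push_cast [hL]; omega
        · push_cast [hL]; omega
      rw [h4] at h3
      simp only [Int.natAbs_natCast] at h3
      omega)
  refine ⟨Nat.card (HV R N L), d, G, ?_, hG⟩
  rw [hcardV]
  have h3 : a ≤ N := by
    rw [hNdef]
    exact (Nat.lt_pow_self (by norm_num)).le
  have h4 : 1 ≤ q := Nat.one_le_pow _ _ (by norm_num)
  have h5 : 1 ≤ 2 * K := by omega
  calc a ≤ N := h3
    _ = 1 * (N * (1 * 1)) := by ring
    _ ≤ q * (N * (N * (2 * K))) :=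
        Nat.mul_le_mul h4 (Nat.mul_le_mul_left _ (Nat.mul_le_mul (by omega) h5))

end main

end Pool.Agent.MP_f6404a_co
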