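import Mathlib

set_option autoImplicit false

namespace Pool.Agent.MP_f6404a_co

section basic

variable {V : Type} (St : V → V → Prop) (o : V)

/-- `w` can be reached from `o` in exactly `T` (lazy) steps. -/
def Reach : ℕ → V → Prop
  | 0, w => w = o
  | T + 1, w => ∃ v, Reach T v ∧ St v w

variable {St} {o}

theorem Reach.mono (hr : ∀ v, St v v) {T T' : ℕ} (h : T ≤ T') {w : V} (hw : Reach St o T w) :
    Reach St o T' w := by
  induction T', h using Nat.le_induction with
  | base => exact hw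
  | succ n _ ih => exact ⟨w, ih, hr w⟩

theorem reach_of_walk (hs : ∀ v w, St v w → St w v) {u w : V} (p : (SimpleGraph.fromRel St).Walk u w)
    (T : ℕ) (hu : Reach St o T u) : Reach St o (T + p.length) w := by
  induction p generalizing T with
  | nil => exact hu
  | cons h p ih =>
    rw [SimpleGraph.Walk.length_cons, ← add_assoc, add_right_comm]
    refine ih (T + 1) ⟨_, hu, ?_⟩
    rw [SimpleGraph.fromRel_adj] at h
    exact h.2.elim id (hs _ _)

theorem walk_of_reach {T : ℕ} {w : V} (hw : Reach St o T w) :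
    ∃ p : (SimpleGraph.fromRel St).Walk o w, p.length ≤ T := by
  induction T generalizing w with
  | zero =>
    have h : w = o := hw
    subst h
    exact ⟨SimpleGraph.Walk.nil, le_refl _⟩
  | succ T ih =>
    obtain ⟨v, hv, hvw⟩ := hw
    obtain ⟨p, hp⟩ := ih hv
    by_cases h : v = w
    · subst h
      exact ⟨p, by omega⟩
    · refine ⟨p.concat ((SimpleGraph.fromRel_adj _ _ _).2 ⟨h, Or.inl hvw⟩), ?_⟩
      rw [SimpleGraph.Walk.length_concat]
      omega

theorem dist_le_iff (hr : ∀ v, St v v) (hs : ∀ v w, St v w → St w v)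
    (hc : ∀ w, ∃ T, Reach St o T w) (T : ℕ) (w : V) :
    (SimpleGraph.fromRel St).dist o w ≤ T ↔ Reach St o T w := by
  constructor
  · intro h
    obtain ⟨T', hT'⟩ := hc w
    obtain ⟨p, -⟩ := walk_of_reach hT'
    obtain ⟨q, hq⟩ := (SimpleGraph.Walk.reachable p).exists_walk_length_eq_dist
    have h1 := reach_of_walk (o := o) hs q 0 rfl
    rw [zero_add, hq] at h1
    exact h1.mono hr h
  · intro h
    obtain ⟨p, hp⟩ := walk_of_reach h
    exact (SimpleGraph.dist_le p).trans hp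

theorem connected_of_reach [Nonempty V] (hc : ∀ w, ∃ T, Reach St o T w) :
    (SimpleGraph.fromRel St).Connected := by
  have h : ∀ w, (SimpleGraph.fromRel St).Reachable o w := by
    intro w
    obtain ⟨T, hT⟩ := hc w
    obtain ⟨p, -⟩ := walk_of_reach hT
    exact p.reachable
  exact ⟨fun u v => (h u).symm.trans (h v)⟩

theorem dist_eq_iff (hr : ∀ v, St v v) (hs : ∀ v w, St v w → St w v)
    (hc : ∀ w, ∃ T, Reach St o T w) (d : ℕ) (hd : 1 ≤ d) (w : V) :
    (SimpleGraph.fromRel St).dist o w = d ↔ (Reach St o d w ∧ ¬ Reach St o (d - 1) w) := by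
  rw [← dist_le_iff hr hs hc, ← dist_le_iff hr hs hc]
  omega

/-- The conclusion of the problem for one graph. -/
def Good (D : ℕ) {V : Type} (G : SimpleGraph V) (d : ℕ) : Prop :=
  G.Connected ∧ (∀ u v : V, ∃ φ : G ≃g G, φ u = v) ∧ (∀ v : V, (G.neighborSet v).ncard ≤ D) ∧
    ∃ v₀ : V, Nat.card V ≤ 2 * {v : V | G.dist v₀ v = d}.ncard ∧
      99 * {v : V | G.dist v₀ v = d}.ncard ≤
        100 * {v : V | G.dist v₀ v = d ∧ ∀ w : V, G.Adj v w → G.dist v₀ w ≠ d + 1}.ncard ∧
      19 * d ≤ 10 * G.diam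

theorem good_of_reach [Finite V] (hr : ∀ v, St v v) (hs : ∀ v w, St v w → St w v)
    (hc : ∀ w, ∃ T, Reach St o T w)
    (ht : ∀ u v, ∃ φ : V ≃ V, φ u = v ∧ ∀ a b, St (φ a) (φ b) ↔ St a b)
    (D : ℕ) (hD : ∀ v, {w | St v w}.ncard ≤ D) (d K : ℕ) (hd : 1 ≤ d) (hdK : 19 * d ≤ 10 * K)
    (hK : 1 ≤ K)
    (h1 : Nat.card V ≤ 2 * {w | Reach St o d w ∧ ¬ Reach St o (d - 1) w}.ncard)
    (Bad : Set V) (h2 : 100 * Bad.ncard ≤ {w | Reach St o d w ∧ ¬ Reach St o (d - 1) w}.ncard)
    (h3 : ∀ w, w ∉ Bad → (Reach St o d w ∧ ¬ Reach St o (d - 1) w) → ∀ w', St w w' →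
      Reach St o d w')
    (h4 : ∃ w, ¬ Reach St o (K - 1) w) :
    Good D (SimpleGraph.fromRel St) d := by
  haveI : Nonempty V := ⟨o⟩
  have hconn : (SimpleGraph.fromRel St).Connected := connected_of_reach hc
  refine ⟨hconn, ?_, ?_, o, ?_, ?_, ?_⟩
  · intro u v
    obtain ⟨φ, hφ, hφ'⟩ := ht u v
    refine ⟨⟨φ, ?_⟩, hφ⟩
    intro a b
    rw [SimpleGraph.fromRel_adj, SimpleGraph.fromRel_adj, hφ', hφ', φ.injective.ne_iff]
  · intro v
    refine le_trans (Set.ncard_le_ncard ?_ (Set.toFinite _)) (hD v)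
    intro w hw
    have hw' : (SimpleGraph.fromRel St).Adj v w := hw
    rw [SimpleGraph.fromRel_adj] at hw'
    exact hw'.2.elim id (hs _ _)
  · simp only [dist_eq_iff hr hs hc d hd]
    exact h1
  · set S := {w | Reach St o d w ∧ ¬ Reach St o (d - 1) w} with hS
    have e1 : {v : V | (SimpleGraph.fromRel St).dist o v = d} = S := by
      ext v
      simp only [Set.mem_setOf_eq, dist_eq_iff hr hs hc d hd, hS]
    have e2 : S \ Bad ⊆ {v : V | (SimpleGraph.fromRel St).dist o v = d ∧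
        ∀ w : V, (SimpleGraph.fromRel St).Adj v w → (SimpleGraph.fromRel St).dist o w ≠ d + 1} := by
      intro v hv
      refine ⟨(dist_eq_iff hr hs hc d hd v).2 hv.1, ?_⟩
      intro w hw
      rw [SimpleGraph.fromRel_adj] at hw
      have h5 := h3 v hv.2 hv.1 w (hw.2.elim id (hs _ _))
      have h6 := (dist_le_iff hr hs hc d w).2 h5
      omega
    have e3 := Set.ncard_le_ncard e2 (Set.toFinite _)
    have e4 : S.ncard ≤ (S \ Bad).ncard + Bad.ncard := by
      have := Set.ncard_le_ncard (s := S) (t := (S \ Bad) ∪ Bad) (by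
        intro x hx
        by_cases hb : x ∈ Bad
        · exact Or.inr hb
        · exact Or.inl ⟨hx, hb⟩) (Set.toFinite _)
      exact this.trans (Set.ncard_union_le _ _)
    rw [e1]
    omega
  · obtain ⟨w, hw⟩ := h4
    have h5 : ¬ (SimpleGraph.fromRel St).dist o w ≤ K - 1 := fun h =>
      hw ((dist_le_iff hr hs hc _ w).1 h)
    have h6 : (SimpleGraph.fromRel St).ediam ≠ ⊤ :=
      (SimpleGraph.connected_iff_ediam_ne_top).1 hconn
    have h7 := SimpleGraph.dist_le_diam h6 (u := o) (v := w)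
    omega

end basic

/-- transfer of the relation to `Fin (card V)` -/
theorem good_transfer {V : Type} {St : V → V → Prop} {o : V} [Finite V] (hr : ∀ v, St v v)
    (hs : ∀ v w, St v w → St w v)
    (hc : ∀ w, ∃ T, Reach St o T w)
    (ht : ∀ u v, ∃ φ : V ≃ V, φ u = v ∧ ∀ a b, St (φ a) (φ b) ↔ St a b)
    (D : ℕ) (hD : ∀ v, {w | St v w}.ncard ≤ D) (d K : ℕ) (hd : 1 ≤ d) (hdK : 19 * d ≤ 10 * K)
    (hK : 1 ≤ K)
    (h1 : Nat.card V ≤ 2 * {w | Reach St o d w ∧ ¬ Reach St o (d - 1) w}.ncard)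
    (Bad : Set V) (h2 : 100 * Bad.ncard ≤ {w | Reach St o d w ∧ ¬ Reach St o (d - 1) w}.ncard)
    (h3 : ∀ w, w ∉ Bad → (Reach St o d w ∧ ¬ Reach St o (d - 1) w) → ∀ w', St w w' →
      Reach St o d w')
    (h4 : ∃ w, ¬ Reach St o (K - 1) w) :
    ∃ G : SimpleGraph (Fin (Nat.card V)), Good D G d := by
  classical
  let e : Fin (Nat.card V) ≃ V := (Finite.equivFin V).symm
  let St' : Fin (Nat.card V) → Fin (Nat.card V) → Prop := fun a b => St (e a) (e b)
  let o' := e.symm o
  have hreach : ∀ T a, Reach St' o' T a ↔ Reach St o T (e a) := by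
    intro T
    induction T with
    | zero =>
      intro a
      change a = o' ↔ e a = o
      rw [Equiv.eq_symm_apply]
    | succ T ih =>
      intro a
      constructor
      · rintro ⟨b, hb, hba⟩
        exact ⟨e b, (ih b).1 hb, hba⟩
      · rintro ⟨v, hv, hva⟩
        refine ⟨e.symm v, (ih _).2 ?_, ?_⟩
        · rw [Equiv.apply_symm_apply]; exact hv
        · change St (e (e.symm v)) (e a)
          rw [Equiv.apply_symm_apply]; exact hva
  have hcard : ∀ P : V → Prop, {a | P (e a)}.ncard = {w | P w}.ncard := by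
    intro P
    have : {w | P w} = e '' {a | P (e a)} := by
      ext w
      simp only [Set.mem_setOf_eq, Set.mem_image]
      constructor
      · intro h
        exact ⟨e.symm w, by rw [Equiv.apply_symm_apply]; exact h, Equiv.apply_symm_apply _ _⟩
      · rintro ⟨a, ha, rfl⟩
        exact ha
    rw [this, Set.ncard_image_of_injective _ e.injective]
  refine ⟨SimpleGraph.fromRel St', good_of_reach (St := St') (o := o') (fun v => hr _)
    (fun v w h => hs _ _ h) ?_ ?_ D ?_ d K hd hdK hK ?_ (e ⁻¹' Bad) ?_ ?_ ?_⟩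
  · intro w
    obtain ⟨T, hT⟩ := hc (e w)
    exact ⟨T, (hreach T w).2 hT⟩
  · intro u v
    obtain ⟨φ, hφ, hφ'⟩ := ht (e u) (e v)
    refine ⟨(e.trans φ).trans e.symm, ?_, ?_⟩
    · change e.symm (φ (e u)) = v
      rw [hφ, Equiv.symm_apply_apply]
    · intro a b
      change St (e (e.symm (φ (e a)))) (e (e.symm (φ (e b)))) ↔ St (e a) (e b)
      rw [Equiv.apply_symm_apply, Equiv.apply_symm_apply, hφ']
  · intro v
    have := hcard (fun w => St (e v) w)
    exact this.le.trans (hD (e v))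
  · simp only [hreach]
    rw [hcard (fun w => Reach St o d w ∧ ¬ Reach St o (d - 1) w), Nat.card_fin]
    exact h1
  · simp only [hreach]
    rw [hcard (fun w => Reach St o d w ∧ ¬ Reach St o (d - 1) w)]
    have := hcard (fun w => w ∈ Bad)
    have h5 : (e ⁻¹' Bad).ncard = Bad.ncard := this
    rw [h5]
    exact h2
  · intro w hw hS w' hw'
    rw [hreach] at hS ⊢
    rw [hreach] at hS
    exact h3 (e w) hw hS (e w') hw'
  · obtain ⟨w, hw⟩ := h4
    refine ⟨e.symm w, ?_⟩
    rw [hreach, Equiv.apply_symm_apply]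
    exact hw

end Pool.Agent.MP_f6404a_co
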