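import Pool.Agent.Lib.MP_f6404a_co.Final

set_option autoImplicit false

namespace Pool.Agent.MP_f6404a_co

open Polynomial

theorem exists_graph (a : ℕ) (ha : 2 ≤ a) :
    ∃ (M d : ℕ) (G : SimpleGraph (Fin M)), a ≤ M ∧ Good (27 * 1009 ^ 2) G d := by
  have hprime : Fact (Nat.Prime 1009) := ⟨by norm_num⟩
  set N : ℕ := 1009 ^ a with hN
  have hN0 : N ≠ 0 := by rw [hN]; positivity
  set f : (ZMod 1009)[X] := X ^ N - C 1 with hf
  have hmonic : f.Monic := monic_X_pow_sub_C 1 hN0
  have hdeg : f.natDegree = N := natDegree_X_pow_sub_C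
  have hne1 : f ≠ 1 := by
    intro h
    rw [h, natDegree_one] at hdeg
    exact hN0 hdeg.symm
  set τ : AdjoinRoot f := AdjoinRoot.root f with hτ
  have hτN : τ ^ N = 1 := by
    have h1 : AdjoinRoot.mk f (X ^ N - C 1) = 0 := AdjoinRoot.mk_self
    rw [map_sub, map_pow, AdjoinRoot.mk_X, map_one, map_one, sub_eq_zero] at h1
    exact h1
  have hzN : (2 - τ) ^ N = 1 := by
    have h1 : ((C 2 - X : (ZMod 1009)[X]) ^ N) = C 1 - (X ^ N - C 1) := by
      rw [hN, sub_pow_char_pow, ← map_pow, ZMod.pow_card_pow]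
      have : (2 : ZMod 1009) = 1 + 1 := by norm_num
      rw [this, map_add]
      ring
    have h2 : AdjoinRoot.mk f ((C 2 - X : (ZMod 1009)[X]) ^ N) = 1 := by
      rw [h1, map_sub, ← hf, AdjoinRoot.mk_self, sub_zero, map_one, map_one]
    rw [map_pow, map_sub, AdjoinRoot.mk_X] at h2
    have h3 : AdjoinRoot.mk f (C (2 : ZMod 1009)) = 2 := by
      rw [show (C (2 : ZMod 1009) : (ZMod 1009)[X]) = 2 from map_ofNat C 2, map_ofNat]
    rw [h3] at h2
    exact h2
  set y : (AdjoinRoot f)ˣ := Units.ofPowEqOne τ N hτN hN0 with hy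
  set z : (AdjoinRoot f)ˣ := Units.ofPowEqOne (2 - τ) N hzN hN0 with hz
  have hyv : (y : AdjoinRoot f) = τ := rfl
  have hzv : (z : AdjoinRoot f) = 2 - τ := rfl
  have hfin : Module.Finite (ZMod 1009) (AdjoinRoot f) :=
    (AdjoinRoot.powerBasis' hmonic).finite
  have : Finite (AdjoinRoot f) := Module.finite_of_finite (ZMod 1009)
  apply main_good hprime y z a ha
  · exact Units.ext (by rw [Units.val_pow_eq_pow_val, hyv]; exact hτN)
  · exact Units.ext (by rw [Units.val_pow_eq_pow_val, hzv]; exact hzN)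
  · rw [hyv, hzv]; ring
  · intro v
    obtain ⟨g, hg⟩ := AdjoinRoot.mk_surjective v
    refine ⟨g %ₘ f, ?_, ?_⟩
    · have := natDegree_modByMonic_lt g hmonic hne1
      rw [hdeg] at this
      omega
    · rw [hyv, hτ, AdjoinRoot.aeval_eq, ← hg]
      conv_lhs => rw [← modByMonic_add_div g f]
      rw [map_add, map_mul, AdjoinRoot.mk_self, zero_mul, add_zero]
  · rw [Module.natCard_eq_pow_finrank (K := ZMod 1009), Nat.card_zmod,
      (AdjoinRoot.powerBasis' hmonic).finrank, AdjoinRoot.powerBasis'_dim, hdeg]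

end Pool.Agent.MP_f6404a_co
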