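import Pool.Agent.Lib.MP_f6404a_co.Graph

/-!
Products of step relations, and the discrete torus `(ℤ/2h)^k` with its `ℓ¹` word metric: almost all
points are within distance `≈ kh/2` of the origin, while the diameter is `kh`.
-/

set_option autoImplicit false

namespace Pool.Agent.MP_f6404a_co

section prod

variable {V W : Type}

/-- the product of two step relations (both coordinates move) -/
def StP (St1 : V → V → Prop) (St2 : W → W → Prop) (v w : V × W) : Prop :=
  St1 v.1 w.1 ∧ St2 v.2 w.2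

theorem reach_prod {St1 : V → V → Prop} {St2 : W → W → Prop} {o1 : V} {o2 : W} (T : ℕ)
    (w : V × W) : Reach (StP St1 St2) (o1, o2) T w ↔ Reach St1 o1 T w.1 ∧ Reach St2 o2 T w.2 := by
  induction T generalizing w with
  | zero =>
    change w = (o1, o2) ↔ w.1 = o1 ∧ w.2 = o2
    rw [Prod.ext_iff]
  | succ T ih =>
    constructor
    · rintro ⟨v, hv, h1, h2⟩
      rw [ih] at hv
      exact ⟨⟨v.1, hv.1, h1⟩, ⟨v.2, hv.2, h2⟩⟩
    · rintro ⟨⟨v1, hv1, h1⟩, ⟨v2, hv2, h2⟩⟩
      exact ⟨(v1, v2), (ih _).2 ⟨hv1, hv2⟩, h1, h2⟩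

end prod

section torus

variable {k h : ℕ}

/-- the discrete torus -/
abbrev Tor (k h : ℕ) : Type := Fin k → ZMod (2 * h)

/-- the `ℓ¹` norm -/
def nrm (c : Tor k h) : ℕ := ∑ i, (c i).valMinAbs.natAbs

/-- one step in the torus -/
def StC (c c' : Tor k h) : Prop :=
  ∃ (i : Fin k) (t : Fin 3), c' = c + Pi.single i (((t.val : ℤ) - 1 : ℤ) : ZMod (2 * h))

theorem StC_refl [NeZero k] (c : Tor k h) : StC c c :=
  ⟨0, 1, by simp⟩

theorem StC_symm (c c' : Tor k h) (H : StC c c') : StC c' c := by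
  obtain ⟨i, t, rfl⟩ := H
  refine ⟨i, Fin.rev t, ?_⟩
  have h1 : ((Fin.rev t).val : ℤ) - 1 = -((t.val : ℤ) - 1) := by
    rw [Fin.val_rev]
    omega
  rw [h1, Int.cast_neg, Pi.single_neg, add_neg_cancel_right]

theorem StC_add (b c c' : Tor k h) : StC (b + c) (b + c') ↔ StC c c' := by
  constructor
  · rintro ⟨i, t, H⟩
    exact ⟨i, t, by rw [add_assoc] at H; exact add_left_cancel H⟩
  · rintro ⟨i, t, rfl⟩
    exact ⟨i, t, by rw [add_assoc]⟩

theorem StC_deg (c : Tor k h) : {c' | StC c c'}.ncard ≤ 3 * k := by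
  have h1 : {c' | StC c c'} ⊆ (fun t : Fin k × Fin 3 =>
      c + Pi.single t.1 (((t.2.val : ℤ) - 1 : ℤ) : ZMod (2 * h))) '' Set.univ := by
    rintro c' ⟨i, t, rfl⟩
    exact ⟨(i, t), Set.mem_univ _, rfl⟩
  refine (Set.ncard_le_ncard h1 (Set.toFinite _)).trans ?_
  refine (Set.ncard_image_le (Set.toFinite _)).trans ?_
  rw [Set.ncard_univ, Nat.card_prod, Nat.card_fin, Nat.card_fin, mul_comm]

theorem natAbs_cast_le [NeZero h] (a : ℤ) : ((a : ZMod (2 * h)).valMinAbs).natAbs ≤ a.natAbs := by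
  apply ZMod.natAbs_min_of_le_div_two (2 * h)
  · rw [ZMod.coe_valMinAbs]
  · exact ZMod.natAbs_valMinAbs_le _

theorem nrm_step [NeZero h] (c c' : Tor k h) (H : StC c c') : nrm c' ≤ nrm c + 1 := by
  obtain ⟨i, t, rfl⟩ := H
  unfold nrm
  have h1 : ∀ j ∈ (Finset.univ : Finset (Fin k)),
      ((c + Pi.single i (((t.val : ℤ) - 1 : ℤ) : ZMod (2 * h)) : Tor k h) j).valMinAbs.natAbs ≤
        (c j).valMinAbs.natAbs + (if j = i then 1 else 0) := by
    intro j _
    by_cases hj : j = i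
    · subst hj
      rw [if_pos rfl, Pi.add_apply, Pi.single_eq_same]
      have h2 := ZMod.natAbs_valMinAbs_add_le (c j) ((((t.val : ℤ) - 1 : ℤ) : ZMod (2 * h)))
      have h3 := natAbs_cast_le (h := h) ((t.val : ℤ) - 1)
      have h4 := Int.natAbs_add_le (c j).valMinAbs
        ((((t.val : ℤ) - 1 : ℤ) : ZMod (2 * h)).valMinAbs)
      have h5 := t.isLt
      omega
    · rw [if_neg hj, Pi.add_apply, Pi.single_eq_of_ne hj, add_zero, add_zero]
  refine (Finset.sum_le_sum h1).trans ?_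
  rw [Finset.sum_add_distrib, Finset.sum_ite_eq' Finset.univ i, if_pos (Finset.mem_univ i)]

theorem nrm_of_reach [NeZero h] (T : ℕ) (c : Tor k h) (H : Reach StC (0 : Tor k h) T c) :
    nrm c ≤ T := by
  induction T generalizing c with
  | zero =>
    have hc : c = 0 := H
    subst hc
    simp [nrm]
  | succ T ih =>
    obtain ⟨v, hv, hvc⟩ := H
    have h1 := ih v hv
    have h2 := nrm_step v c hvc
    omega

theorem reach_of_nrm [NeZero h] [NeZero k] (T : ℕ) (c : Tor k h) (H : nrm c ≤ T) :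
    Reach StC (0 : Tor k h) T c := by
  induction T generalizing c with
  | zero =>
    change c = 0
    have h0 : nrm c = 0 := by omega
    unfold nrm at h0
    rw [Finset.sum_eq_zero_iff] at h0
    funext i
    have h1 := h0 i (Finset.mem_univ i)
    rw [Int.natAbs_eq_zero] at h1
    exact (ZMod.valMinAbs_eq_zero _).1 h1
  | succ T ih =>
    by_cases hT : nrm c ≤ T
    · exact (ih c hT).mono (fun v => StC_refl v) (Nat.le_succ T)
    have hT' : nrm c = T + 1 := by omega
    obtain ⟨i, hi⟩ : ∃ i, (c i).valMinAbs.natAbs ≠ 0 := by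
      by_contra hcon
      push Not at hcon
      have : nrm c = 0 := Finset.sum_eq_zero fun i _ => hcon i
      omega
    set a : ℤ := (c i).valMinAbs with ha
    obtain ⟨t, ht⟩ : ∃ t : Fin 3, (a - ((t.val : ℤ) - 1)).natAbs + 1 = a.natAbs := by
      rcases lt_or_gt_of_ne (Int.natAbs_ne_zero.1 hi) with h1 | h1
      · exact ⟨0, by simp only [Fin.val_zero]; omega⟩
      · exact ⟨2, by simp only [Fin.val_two]; omega⟩
    set s : ZMod (2 * h) := (((t.val : ℤ) - 1 : ℤ) : ZMod (2 * h)) with hs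
    set c0 : Tor k h := c - Pi.single i s with hc0
    have hstep : StC c0 c := ⟨i, t, by rw [← hs, hc0, sub_add_cancel]⟩
    refine ⟨c0, ih c0 ?_, hstep⟩
    have h2 : nrm c0 + 1 ≤ nrm c := by
      unfold nrm
      rw [← Finset.add_sum_erase _ _ (Finset.mem_univ i), ← Finset.add_sum_erase (a := i) _
        (fun i => (c i).valMinAbs.natAbs) (Finset.mem_univ i)]
      have h3 : ∑ j ∈ Finset.univ.erase i, (c0 j).valMinAbs.natAbs =
          ∑ j ∈ Finset.univ.erase i, (c j).valMinAbs.natAbs := by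
        apply Finset.sum_congr rfl
        intro j hj
        rw [hc0, Pi.sub_apply, Pi.single_eq_of_ne (Finset.ne_of_mem_erase hj), sub_zero]
      have h4 : (c0 i).valMinAbs.natAbs + 1 ≤ (c i).valMinAbs.natAbs := by
        have h5 : c0 i = ((a - ((t.val : ℤ) - 1) : ℤ) : ZMod (2 * h)) := by
          rw [hc0, Pi.sub_apply, Pi.single_eq_same, Int.cast_sub, ← hs, ha, ZMod.coe_valMinAbs]
        have h6 := natAbs_cast_le (h := h) (a - ((t.val : ℤ) - 1))
        rw [← h5] at h6
        omega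
      rw [h3]
      omega
    omega

/-- the centred norm in one coordinate -/
noncomputable def gg (h : ℕ) (x : ZMod (2 * h)) : ℝ := 2 * (x.valMinAbs.natAbs : ℝ) - h

theorem gg_add [NeZero h] (x : ZMod (2 * h)) : gg h (x + (h : ZMod (2 * h))) = - gg h x := by
  have hh : 0 < h := Nat.pos_of_ne_zero (NeZero.ne h)
  have h1 : (x + (h : ZMod (2 * h))).valMinAbs.natAbs + x.valMinAbs.natAbs = h := by
    rw [ZMod.valMinAbs_natAbs_eq_min, ZMod.valMinAbs_natAbs_eq_min, ZMod.val_add]
    have h2 : (h : ZMod (2 * h)).val = h := by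
      rw [ZMod.val_natCast]
      exact Nat.mod_eq_of_lt (by omega)
    rw [h2]
    have h3 := ZMod.val_lt x
    rcases lt_or_ge x.val h with h4 | h4
    · rw [Nat.mod_eq_of_lt (by omega)]
      omega
    · rw [Nat.mod_eq_sub_mod (by omega), Nat.mod_eq_of_lt (by omega)]
      omega
  have h5 : ((x + (h : ZMod (2 * h))).valMinAbs.natAbs : ℝ) + (x.valMinAbs.natAbs : ℝ) = h := by
    exact_mod_cast h1
  unfold gg
  linarith

theorem gg_sq [NeZero h] (x : ZMod (2 * h)) : gg h x * gg h x ≤ (h : ℝ) ^ 2 := by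
  have h1 := ZMod.natAbs_valMinAbs_le x
  have h2 : x.valMinAbs.natAbs ≤ h := by omega
  have h3 : (x.valMinAbs.natAbs : ℝ) ≤ h := by exact_mod_cast h2
  have h4 : (0 : ℝ) ≤ x.valMinAbs.natAbs := Nat.cast_nonneg _
  unfold gg
  nlinarith

theorem sum_gg [NeZero h] (c : Tor k h) : ∑ i, gg h (c i) = 2 * (nrm c : ℝ) - k * h := by
  unfold gg nrm
  rw [Finset.sum_sub_distrib, ← Finset.mul_sum, Finset.sum_const, Finset.card_univ,
    Fintype.card_fin, nsmul_eq_mul]
  push_cast
  rfl

/-- the second moment of the centred norm -/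
theorem moment [NeZero h] :
    ∑ c : Tor k h, (∑ i, gg h (c i)) ^ 2 ≤ k * (h : ℝ) ^ 2 * Fintype.card (Tor k h) := by
  have h0 : ∀ i j : Fin k, i ≠ j → ∑ c : Tor k h, gg h (c i) * gg h (c j) = 0 := by
    intro i j hij
    have h1 : ∑ c : Tor k h, gg h (c i) * gg h (c j) =
        ∑ c : Tor k h, gg h ((c + Pi.single i (h : ZMod (2 * h)) : Tor k h) i) *
          gg h ((c + Pi.single i (h : ZMod (2 * h)) : Tor k h) j) :=
      (Equiv.sum_comp (Equiv.addRight (Pi.single i (h : ZMod (2 * h)) : Tor k h))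
        (fun c => gg h (c i) * gg h (c j))).symm
    have h2 : ∑ c : Tor k h, gg h ((c + Pi.single i (h : ZMod (2 * h)) : Tor k h) i) *
          gg h ((c + Pi.single i (h : ZMod (2 * h)) : Tor k h) j) =
          - ∑ c : Tor k h, gg h (c i) * gg h (c j) := by
      rw [← Finset.sum_neg_distrib]
      apply Finset.sum_congr rfl
      intro c _
      rw [Pi.add_apply, Pi.add_apply, Pi.single_eq_same, Pi.single_eq_of_ne hij.symm, add_zero,
        gg_add]
      ring
    rw [h2] at h1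
    linarith
  have h3 : ∀ c : Tor k h, (∑ i, gg h (c i)) ^ 2 = ∑ i, ∑ j, gg h (c i) * gg h (c j) := by
    intro c
    rw [sq, Finset.sum_mul_sum]
  rw [Finset.sum_congr rfl fun c _ => h3 c, Finset.sum_comm]
  have h4 : ∀ i : Fin k, ∑ c : Tor k h, ∑ j, gg h (c i) * gg h (c j) ≤
      (h : ℝ) ^ 2 * Fintype.card (Tor k h) := by
    intro i
    rw [Finset.sum_comm, Finset.sum_eq_single i]
    · refine (Finset.sum_le_sum fun c _ => gg_sq (c i)).trans ?_
      rw [Finset.sum_const, Finset.card_univ, nsmul_eq_mul, mul_comm]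
    · intro j _ hj
      exact h0 i j hj.symm
    · intro hi
      exact absurd (Finset.mem_univ i) hi
  refine (Finset.sum_le_sum fun i _ => h4 i).trans ?_
  rw [Finset.sum_const, Finset.card_univ, Fintype.card_fin, nsmul_eq_mul, mul_assoc]

/-- Chebyshev: few points have a large norm. -/
theorem cheb [NeZero h] (d : ℕ) (s : ℝ) (hs : 0 ≤ s) (hd : s + k * h ≤ 2 * d) :
    s ^ 2 * ({c : Tor k h | ¬ nrm c < d}.ncard : ℝ) ≤
      k * (h : ℝ) ^ 2 * Fintype.card (Tor k h) := by
  classical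
  refine le_trans ?_ (moment (k := k) (h := h))
  have h1 : {c : Tor k h | ¬ nrm c < d} =
      ((Finset.univ.filter fun c : Tor k h => ¬ nrm c < d : Finset (Tor k h)) : Set (Tor k h)) := by
    ext c
    simp
  rw [h1, Set.ncard_coe_finset, mul_comm, ← nsmul_eq_mul, ← Finset.sum_const]
  have key : ∀ c ∈ Finset.univ.filter (fun c : Tor k h => ¬ nrm c < d),
      s ^ 2 ≤ (∑ i, gg h (c i)) ^ 2 := by
    intro c hc
    have h2 : d ≤ nrm c := not_lt.1 (Finset.mem_filter.1 hc).2
    have h3 : (d : ℝ) ≤ nrm c := by exact_mod_cast h2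
    have h4 : s ≤ ∑ i, gg h (c i) := by
      rw [sum_gg]
      linarith
    exact pow_le_pow_left₀ hs h4 2
  refine (Finset.sum_le_sum key).trans ?_
  exact Finset.sum_le_sum_of_subset_of_nonneg (Finset.filter_subset _ _)
    fun c _ _ => sq_nonneg _

end torus

end Pool.Agent.MP_f6404a_co
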