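import Pool.Agent.Lib.MP_f6404a_co.Final
import Pool.Agent.Lib.MP_f6404a_co.Torus

/-!
The strong form: for every `ε > 0` there are vertex-transitive graphs of bounded degree in which all
but a fraction `ε` of the vertices are at distance exactly `d` from a given vertex and have no
neighbour at distance `d + 1`, while the diameter is at least `(2 - ε) d`.
-/

set_option autoImplicit false

namespace Pool.Agent.MP_f6404a_co

open Polynomial

/-- the coefficient ring `F_p[x]/(x^N - 1)`, `N = p^a` -/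
theorem exists_ring (p : ℕ) [hprime : Fact p.Prime] (a : ℕ) :
    ∃ (R : Type) (_ : CommRing R) (_ : Finite R) (_ : Algebra (ZMod p) R) (y z : Rˣ),
      y ^ (p ^ a) = 1 ∧ z ^ (p ^ a) = 1 ∧ (y : R) + z = 2 ∧
      (∀ v : R, ∃ f : (ZMod p)[X], f.natDegree ≤ p ^ a - 1 ∧ v = aeval (y : R) f) ∧
      Nat.card R = p ^ (p ^ a) := by
  set N : ℕ := p ^ a with hN
  have hN0 : N ≠ 0 := by rw [hN]; exact pow_ne_zero _ hprime.out.ne_zero
  set f : (ZMod p)[X] := X ^ N - C 1 with hf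
  have hmonic : f.Monic := monic_X_pow_sub_C 1 hN0
  have hdeg : f.natDegree = N := natDegree_X_pow_sub_C
  have hne1 : f ≠ 1 := by
    intro h
    rw [h, natDegree_one] at hdeg
    exact hN0 hdeg.symm
  set τ : AdjoinRoot f := AdjoinRoot.root f with hτ
  have hτN : τ ^ N = 1 := by
    have h1 : AdjoinRoot.mk f (X ^ N - C 1) = 0 := AdjoinRoot.mk_self
    rw [map_sub, map_pow, AdjoinRoot.mk_X, map_one, map_one, sub_eq_zero] at h1
    exact h1
  have hzN : (2 - τ) ^ N = 1 := by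
    have h1 : ((C 2 - X : (ZMod p)[X]) ^ N) = C 1 - (X ^ N - C 1) := by
      rw [hN, sub_pow_char_pow, ← map_pow, ZMod.pow_card_pow]
      have : (2 : ZMod p) = 1 + 1 := by norm_num
      rw [this, map_add]
      ring
    have h2 : AdjoinRoot.mk f ((C 2 - X : (ZMod p)[X]) ^ N) = 1 := by
      rw [h1, map_sub, ← hf, AdjoinRoot.mk_self, sub_zero, map_one, map_one]
    rw [map_pow, map_sub, AdjoinRoot.mk_X] at h2
    have h3 : AdjoinRoot.mk f (C (2 : ZMod p)) = 2 := by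
      rw [show (C (2 : ZMod p) : (ZMod p)[X]) = 2 from map_ofNat C 2, map_ofNat]
    rw [h3] at h2
    exact h2
  have hfin : Module.Finite (ZMod p) (AdjoinRoot f) :=
    (AdjoinRoot.powerBasis' hmonic).finite
  have hfin' : Finite (AdjoinRoot f) := Module.finite_of_finite (ZMod p)
  refine ⟨AdjoinRoot f, inferInstance, hfin', inferInstance, Units.ofPowEqOne τ N hτN hN0,
    Units.ofPowEqOne (2 - τ) N hzN hN0, ?_, ?_, ?_, ?_, ?_⟩
  · exact Units.ext hτN
  · exact Units.ext hzN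
  · change τ + (2 - τ) = 2
    ring
  · intro v
    obtain ⟨g, hg⟩ := AdjoinRoot.mk_surjective v
    refine ⟨g %ₘ f, ?_, ?_⟩
    · have := natDegree_modByMonic_lt g hmonic hne1
      rw [hdeg] at this
      omega
    · change v = aeval τ (g %ₘ f)
      rw [hτ, AdjoinRoot.aeval_eq, ← hg]
      conv_lhs => rw [← modByMonic_add_div g f]
      rw [map_add, map_mul, AdjoinRoot.mk_self, zero_mul, add_zero]
  · rw [Module.natCard_eq_pow_finrank (K := ZMod p), Nat.card_zmod,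
      (AdjoinRoot.powerBasis' hmonic).finrank, AdjoinRoot.powerBasis'_dim, hdeg]

section first

variable {p : ℕ} [Fact p.Prime] {R : Type} [CommRing R] [Finite R] [Algebra (ZMod p) R]
variable {N : ℕ} [NeZero N] (y z : Rˣ)

/-- the good elements of the first factor -/
def YY (p : ℕ) [Fact p.Prime] [Algebra (ZMod p) R] (N : ℕ) (y z : Rˣ) : Set (HV R N 1) :=
  {w | w.2.1 ∉ ({0, 1, -1} : Finset (ZMod N)) ∧ w.2.2.1 ∉ ({0, 1, -1} : Finset (ZMod N)) ∧
    ¬ Reach (St p y z N 1) (0, 0, 0, 0) (N - 1 - 1) w}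

theorem card_YY (hN : 2 ≤ N) (hy : y ^ N = 1) (hz : z ^ N = 1) (hyz : (y : R) + z = 2)
    (hcard : Nat.card R = p ^ N) :
    (((YY p N y z)ᶜ).ncard : ℝ) ≤ 6 * ((p : ℝ) ^ N * N) + 24 * N * N * ((p : ℝ) ^ N / p) := by
  classical
  have hp : 2 ≤ p := (Fact.out : p.Prime).two_le
  set T0 : Finset (ZMod N) := {0, 1, -1} with hT0
  have hT0card : T0.card ≤ 3 := Finset.card_le_three
  set BB : Set (HV R N 1) := {w | Reach (St p y z N 1) (0, 0, 0, 0) (N - 1 - 1) w} with hBB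
  have h1 : (YY p N y z)ᶜ ⊆ ({w : HV R N 1 | w.2.1 ∈ T0} ∪ {w | w.2.2.1 ∈ T0}) ∪ BB := by
    intro w hw
    by_cases h2 : w.2.1 ∈ T0
    · exact Or.inl (Or.inl h2)
    by_cases h3 : w.2.2.1 ∈ T0
    · exact Or.inl (Or.inr h3)
    right
    by_contra h4
    exact hw ⟨h2, h3, h4⟩
  have h2 := Set.ncard_le_ncard h1 (Set.toFinite _)
  have h3 := Set.ncard_union_le ({w : HV R N 1 | w.2.1 ∈ T0} ∪ {w | w.2.2.1 ∈ T0}) BB
  have h4 := Set.ncard_union_le {w : HV R N 1 | w.2.1 ∈ T0} {w | w.2.2.1 ∈ T0}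
  have h5 := card_bad1 (R := R) (L := 1) T0
  have h6 := card_bad2 (R := R) (L := 1) T0
  rw [hcard] at h5 h6
  -- the ball
  obtain ⟨hBfin, hB⟩ := ball_count p N y z hy hz hyz 1 (N - 1 - 1)
  have h7 : BB.ncard ≤ (BT p N y z 1 (N - 1 - 1)).ncard := by
    set f : HV R N 1 → R × ZMod N × ZMod N := fun w => (w.1, w.2.1, w.2.2.1) with hf
    have hinj : Function.Injective f := by
      rintro ⟨r, i, j, k⟩ ⟨r', i', j', k'⟩ h
      simp only [hf, Prod.mk.injEq] at h
      obtain ⟨e1, e2, e3⟩ := h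
      subst e1; subst e2; subst e3
      have e4 : k = k' := Subsingleton.elim _ _
      rw [e4]
    rw [← Set.ncard_image_of_injective BB hinj]
    apply Set.ncard_le_ncard _ (Set.toFinite _)
    rintro _ ⟨w, hw, rfl⟩
    exact ⟨w.2.2.2, hw⟩
  have h8 : (BB.ncard : ℝ) ≤ 24 * N * N * ((p : ℝ) ^ N / p) := by
    have e0 : (BB.ncard : ℝ) ≤ ((BT p N y z 1 (N - 1 - 1)).ncard : ℝ) := by exact_mod_cast h7
    refine (e0.trans hB).trans ?_
    have e1 : (((N - 1 - 1 : ℕ) : ℝ) + 1) ≤ N := by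
      have : N - 1 - 1 + 1 ≤ N := by omega
      exact_mod_cast this
    have hp0 : (p : ℝ) ≠ 0 := by
      have : p ≠ 0 := by omega
      exact_mod_cast this
    have e2 : (p : ℝ) ^ (N - 1 - 1 + 1) = (p : ℝ) ^ N / p := by
      rw [eq_div_iff hp0, ← pow_succ]
      congr 1
      omega
    rw [e2]
    have e3 : (0 : ℝ) ≤ (p : ℝ) ^ N / p := by positivity
    have e4 : (0 : ℝ) ≤ N := Nat.cast_nonneg _
    have e5 : 24 * (((N - 1 - 1 : ℕ) : ℝ) + 1) * N ≤ 24 * N * N := by nlinarith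
    exact mul_le_mul_of_nonneg_right e5 e3
  have h9 : ((YY p N y z)ᶜ).ncard ≤ 3 * (p ^ N * N) + 3 * (p ^ N * N) + BB.ncard := by
    have e1 : T0.card * (p ^ N * (N * 1)) ≤ 3 * (p ^ N * N) := by
      rw [mul_one]
      exact Nat.mul_le_mul_right _ hT0card
    omega
  have h10 : (((YY p N y z)ᶜ).ncard : ℝ) ≤ 3 * ((p : ℝ) ^ N * N) + 3 * ((p : ℝ) ^ N * N) +
      (BB.ncard : ℝ) := by exact_mod_cast h9
  linarith

omit [Finite R] in
theorem upper1 (hN : 2 ≤ N) (hy : y ^ N = 1) (hz : z ^ N = 1) (hyz : (y : R) + z = 2)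
    (h2 : (2 : ZMod p) ≠ 0)
    (hspan : ∀ v : R, ∃ f : (ZMod p)[X], f.natDegree ≤ N - 1 ∧ v = aeval (y : R) f)
    (w : HV R N 1) (hi : w.2.1 ≠ 0) (hj : w.2.2.1 ≠ 0) :
    Reach (St p y z N 1) (0, 0, 0, 0) (N - 1) w := by
  refine upper y z hy hz hyz h2 hspan w hN hi hj ?_
  have h1 := ZMod.natAbs_valMinAbs_le w.2.2.2
  omega

omit [Finite R] [NeZero N] in
/-- neighbours of good elements have nonzero positions -/
theorem YY_step (w w' : HV R N 1) (hw : w ∈ YY p N y z) (h : St p y z N 1 w w') :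
    w'.2.1 ≠ 0 ∧ w'.2.2.1 ≠ 0 := by
  obtain ⟨a, b, hab, c, c', h1, h2, -⟩ := h
  have key : ∀ (i : ZMod N) (a1 : ℤ), |a1| ≤ 1 → i ∉ ({0, 1, -1} : Finset (ZMod N)) →
      i + (a1 : ZMod N) ≠ 0 := by
    intro i a1 ha1 hi h
    rw [abs_le] at ha1
    have h3 : a1 = -1 ∨ a1 = 0 ∨ a1 = 1 := by omega
    apply hi
    rw [Finset.mem_insert, Finset.mem_insert, Finset.mem_singleton]
    rcases h3 with rfl | rfl | rfl
    · right; left
      have := eq_neg_of_add_eq_zero_left h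
      simpa using this
    · left; simpa using h
    · right; right
      have := eq_neg_of_add_eq_zero_left h
      simpa using this
  rw [h1, h2]
  exact ⟨key _ _ hab.1 hw.1, key _ _ hab.2.1 hw.2.1⟩

end first

end Pool.Agent.MP_f6404a_co
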