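import Pool.Agent.Lib.MP_f6404a_co.Strong

/-!
The product graph.
-/

set_option autoImplicit false

namespace Pool.Agent.MP_f6404a_co

open Polynomial

section product

variable {p : ℕ} [Fact p.Prime] {R : Type} [CommRing R] [Finite R] [Algebra (ZMod p) R]
variable {N k h : ℕ} [NeZero N] [NeZero k] [NeZero h] (y z : Rˣ)

/-- the step relation of the product -/
abbrev SS (p : ℕ) [Fact p.Prime] [Algebra (ZMod p) R] (N k h : ℕ) (y z : Rˣ) :
    HV R N 1 × Tor k h → HV R N 1 × Tor k h → Prop :=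
  StP (St p y z N 1) (StC (k := k) (h := h))

/-- the base point -/
abbrev oo (R : Type) [CommRing R] (N k h : ℕ) : HV R N 1 × Tor k h := ((0, 0, 0, 0), 0)

omit [Finite R] [NeZero N] [NeZero h] in
theorem SS_refl (v : HV R N 1 × Tor k h) : SS p N k h y z v v :=
  ⟨St_refl y z _, StC_refl _⟩

omit [Finite R] [NeZero N] [NeZero k] [NeZero h] in
theorem SS_symm (v w : HV R N 1 × Tor k h) (H : SS p N k h y z v w) : SS p N k h y z w v :=
  ⟨St_symm y z _ _ H.1, StC_symm _ _ H.2⟩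

omit [Finite R] in
theorem SS_reach (hN : 2 ≤ N) (hy : y ^ N = 1) (hz : z ^ N = 1) (hyz : (y : R) + z = 2)
    (h2 : (2 : ZMod p) ≠ 0)
    (hspan : ∀ v : R, ∃ f : (ZMod p)[X], f.natDegree ≤ N - 1 ∧ v = aeval (y : R) f)
    (w : HV R N 1 × Tor k h) : ∃ T, Reach (SS p N k h y z) (oo R N k h) T w := by
  obtain ⟨T1, hT1⟩ := reach_all (L := 1) y z hy hz hyz h2 hspan hN w.1
  have hT2 : Reach StC (0 : Tor k h) (nrm w.2) w.2 := reach_of_nrm _ _ le_rfl
  refine ⟨T1 + nrm w.2, (reach_prod _ w).2 ⟨?_, ?_⟩⟩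
  · exact hT1.mono (fun v => St_refl y z v) (Nat.le_add_right _ _)
  · exact hT2.mono (fun v => StC_refl v) (Nat.le_add_left _ _)

omit [Finite R] [NeZero k] [NeZero h] in
theorem SS_trans (hy : y ^ N = 1) (hz : z ^ N = 1) (u v : HV R N 1 × Tor k h) :
    ∃ φ : (HV R N 1 × Tor k h) ≃ (HV R N 1 × Tor k h), φ u = v ∧
      ∀ a b, SS p N k h y z (φ a) (φ b) ↔ SS p N k h y z a b := by
  obtain ⟨φ1, h1, h2⟩ := transitive (p := p) y z hy hz u.1 v.1
  refine ⟨Equiv.prodCongr φ1 (Equiv.addLeft (v.2 - u.2)), ?_, ?_⟩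
  · ext1
    · exact h1
    · change v.2 - u.2 + u.2 = v.2
      rw [sub_add_cancel]
  · intro a b
    change (St p y z N 1 (φ1 a.1) (φ1 b.1) ∧ StC (v.2 - u.2 + a.2) (v.2 - u.2 + b.2)) ↔ _
    rw [h2, StC_add]
    rfl

theorem SS_deg (v : HV R N 1 × Tor k h) :
    {w | SS p N k h y z v w}.ncard ≤ 27 * p ^ 2 * (3 * k) := by
  have h1 : {w | SS p N k h y z v w} = {w | St p y z N 1 v.1 w} ×ˢ {c | StC v.2 c} := by
    ext w
    rfl
  rw [h1, Set.ncard_prod]
  exact Nat.mul_le_mul (deg_bound y z v.1) (StC_deg v.2)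

/-- The conclusion for one graph. -/
def Great (Δ : ℕ) (ε : ℝ) {V : Type} (G : SimpleGraph V) (d : ℕ) (o : V) : Prop :=
  0 < d ∧ G.Connected ∧ (∀ u v : V, ∃ φ : G ≃g G, φ u = v) ∧
    (∀ v : V, (G.neighborSet v).ncard ≤ Δ) ∧
    (1 - ε) * (Nat.card V : ℝ) ≤
      ({u : V | G.dist o u = d ∧ ∀ w : V, G.Adj u w → G.dist o w ≠ d + 1}.ncard : ℝ) ∧
    (2 - ε) * (d : ℝ) ≤ (G.diam : ℝ)

theorem great (hN : 2 ≤ N) (hy : y ^ N = 1) (hz : z ^ N = 1) (hyz : (y : R) + z = 2)
    (h2 : (2 : ZMod p) ≠ 0)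
    (hspan : ∀ v : R, ∃ f : (ZMod p)[X], f.natDegree ≤ N - 1 ∧ v = aeval (y : R) f)
    (hcard : Nat.card R = p ^ N) (ε : ℝ) (hε : 0 < ε) (hε1 : ε ≤ 1)
    (hp : 96 ≤ ε * p) (hNε : 24 ≤ ε * N) (hk : 64 ≤ ε ^ 3 * k)
    (hh1 : (k : ℝ) * h ≤ (2 - ε / 2) * ((N - 1 : ℕ) : ℝ))
    (hh2 : (2 - ε) * ((N - 1 : ℕ) : ℝ) ≤ (k : ℝ) * h) :
    Great (27 * p ^ 2 * (3 * k)) ε (SimpleGraph.fromRel (SS p N k h y z)) (N - 1)
      (oo R N k h) := by
  classical
  set d : ℕ := N - 1 with hd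
  have hd1 : 1 ≤ d := by omega
  have hr := SS_refl (p := p) (N := N) (k := k) (h := h) y z
  have hs := SS_symm (p := p) (N := N) (k := k) (h := h) y z
  have hc := SS_reach (p := p) (N := N) (k := k) (h := h) y z hN hy hz hyz h2 hspan
  have : Nonempty (HV R N 1 × Tor k h) := ⟨oo R N k h⟩
  have hconn : (SimpleGraph.fromRel (SS p N k h y z)).Connected := connected_of_reach hc
  have hd0 : (1 : ℝ) ≤ d := by exact_mod_cast hd1
  refine ⟨by omega, hconn, ?_, ?_, ?_, ?_⟩
  · intro u v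
    obtain ⟨φ, hφ, hφ'⟩ := SS_trans (p := p) y z hy hz u v
    refine ⟨⟨φ, ?_⟩, hφ⟩
    intro a b
    rw [SimpleGraph.fromRel_adj, SimpleGraph.fromRel_adj, hφ', hφ', φ.injective.ne_iff]
  · intro v
    refine le_trans (Set.ncard_le_ncard ?_ (Set.toFinite _)) (SS_deg y z v)
    intro w hw
    have hw' : (SimpleGraph.fromRel (SS p N k h y z)).Adj v w := hw
    rw [SimpleGraph.fromRel_adj] at hw'
    exact hw'.2.elim id (hs _ _)
  · -- counting
    set Z : Set (HV R N 1 × Tor k h) := (YY p N y z) ×ˢ {c : Tor k h | nrm c < d} with hZ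
    have hsub : Z ⊆ {u | (SimpleGraph.fromRel (SS p N k h y z)).dist (oo R N k h) u = d ∧
        ∀ w, (SimpleGraph.fromRel (SS p N k h y z)).Adj u w →
          (SimpleGraph.fromRel (SS p N k h y z)).dist (oo R N k h) w ≠ d + 1} := by
      rintro ⟨u, c⟩ ⟨hu, hcn⟩
      have hcn' : nrm c < d := hcn
      have hu' : u ∈ YY p N y z := hu
      constructor
      · rw [dist_eq_iff hr hs hc d hd1, reach_prod, reach_prod]
        refine ⟨⟨?_, ?_⟩, ?_⟩
        · apply upper1 y z hN hy hz hyz h2 hspan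
          · intro h0
            apply hu'.1
            rw [h0]
            exact Finset.mem_insert_self _ _
          · intro h0
            apply hu'.2.1
            rw [h0]
            exact Finset.mem_insert_self _ _
        · exact reach_of_nrm _ _ hcn'.le
        · intro h0
          exact hu'.2.2 h0.1
      · intro w hw
        rw [SimpleGraph.fromRel_adj] at hw
        have hst : SS p N k h y z (u, c) w := hw.2.elim id (hs _ _)
        have h5 : Reach (SS p N k h y z) (oo R N k h) d w := by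
          rw [reach_prod]
          have h6 := YY_step y z u w.1 hu' hst.1
          refine ⟨upper1 y z hN hy hz hyz h2 hspan _ h6.1 h6.2, reach_of_nrm _ _ ?_⟩
          have h7 := nrm_step c w.2 hst.2
          omega
        have h6 := (dist_le_iff hr hs hc d w).2 h5
        omega
    have hle : (Z.ncard : ℝ) ≤ ({u | (SimpleGraph.fromRel (SS p N k h y z)).dist (oo R N k h) u = d ∧
        ∀ w, (SimpleGraph.fromRel (SS p N k h y z)).Adj u w →
          (SimpleGraph.fromRel (SS p N k h y z)).dist (oo R N k h) w ≠ d + 1}.ncard : ℝ) := by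
      exact_mod_cast Set.ncard_le_ncard hsub (Set.toFinite _)
    refine le_trans ?_ hle
    -- the first factor
    set A : ℝ := (p : ℝ) ^ N with hA
    have hA0 : 0 ≤ A := by positivity
    have hp0 : (0 : ℝ) < p := by
      have : 0 < p := (Fact.out : p.Prime).pos
      exact_mod_cast this
    have hN0 : (0 : ℝ) < N := by
      have : 0 < N := by omega
      exact_mod_cast this
    have hcardH : (Nat.card (HV R N 1) : ℝ) = A * N * N := by
      rw [Nat.card_prod, Nat.card_prod, Nat.card_prod, Nat.card_zmod, Nat.card_zmod, hcard]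
      push_cast
      ring
    have hY1 := card_YY y z hN hy hz hyz hcard
    have hY2 : ((YY p N y z)ᶜ.ncard : ℝ) ≤ ε / 2 * (A * N * N) := by
      have e1 : 6 * (A * N) ≤ ε / 4 * (A * N * N) := by
        have : 0 ≤ A * N := mul_nonneg hA0 hN0.le
        nlinarith
      have e2 : 24 * N * N * (A / p) ≤ ε / 4 * (A * N * N) := by
        rw [show 24 * (N : ℝ) * N * (A / p) = (24 * (A * N * N)) / p by ring,
          div_le_iff₀ hp0]
        have : 0 ≤ A * N * N := mul_nonneg (mul_nonneg hA0 hN0.le) hN0.le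
        nlinarith
      linarith
    have hY3 : ((YY p N y z).ncard : ℝ) + ((YY p N y z)ᶜ.ncard : ℝ) = A * N * N := by
      rw [← hcardH]
      exact_mod_cast Set.ncard_add_ncard_compl (YY p N y z)
    -- the torus
    set C : ℝ := (Fintype.card (Tor k h) : ℝ) with hC
    have hC0 : 0 ≤ C := Nat.cast_nonneg _
    have hT1 := cheb (k := k) (h := h) d (ε * d / 2) (by positivity) (by linarith)
    set D : ℝ := ({c : Tor k h | ¬ nrm c < d}.ncard : ℝ) with hD
    have hD0 : 0 ≤ D := Nat.cast_nonneg _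
    have hk0 : (0 : ℝ) < k := by
      have : 0 < k := Nat.pos_of_ne_zero (NeZero.ne k)
      exact_mod_cast this
    have hT2 : D ≤ ε / 4 * C := by
      have e1 : (k : ℝ) * ((ε * d / 2) ^ 2 * D) ≤ (k * h) ^ 2 * C := by
        calc (k : ℝ) * ((ε * d / 2) ^ 2 * D) ≤ k * (k * (h : ℝ) ^ 2 * C) :=
              mul_le_mul_of_nonneg_left hT1 hk0.le
          _ = (k * h) ^ 2 * C := by ring
      have e2 : ((k : ℝ) * h) ^ 2 ≤ (2 * d) ^ 2 := by
        apply pow_le_pow_left₀ (by positivity)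
        nlinarith
      have e3 : (k : ℝ) * ((ε * d / 2) ^ 2 * D) ≤ (2 * d) ^ 2 * C :=
        e1.trans (mul_le_mul_of_nonneg_right e2 hC0)
      have e4 : (d : ℝ) ^ 2 * (k * ε ^ 2 * D) ≤ (d : ℝ) ^ 2 * (16 * C) := by
        nlinarith
      have e5 : (k : ℝ) * ε ^ 2 * D ≤ 16 * C :=
        le_of_mul_le_mul_left e4 (by positivity)
      have e6 : 64 * D ≤ ε * (16 * C) := by
        calc 64 * D ≤ (ε ^ 3 * k) * D := mul_le_mul_of_nonneg_right hk hD0
          _ = ε * ((k : ℝ) * ε ^ 2 * D) := by ring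
          _ ≤ ε * (16 * C) := mul_le_mul_of_nonneg_left e5 hε.le
      linarith
    have hT3 : ({c : Tor k h | nrm c < d}.ncard : ℝ) + D = C := by
      have e1 := Set.ncard_add_ncard_compl {c : Tor k h | nrm c < d}
      have e2 : ({c : Tor k h | nrm c < d})ᶜ = {c : Tor k h | ¬ nrm c < d} := rfl
      rw [e2, Nat.card_eq_fintype_card] at e1
      rw [hD, hC]
      exact_mod_cast e1
    have hZc : (Z.ncard : ℝ) = ((YY p N y z).ncard : ℝ) * ({c : Tor k h | nrm c < d}.ncard : ℝ) := by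
      rw [hZ, Set.ncard_prod]
      push_cast
      rfl
    have hcardV : (Nat.card (HV R N 1 × Tor k h) : ℝ) = A * N * N * C := by
      rw [Nat.card_prod, Nat.cast_mul, hcardH, Nat.card_eq_fintype_card (α := Tor k h)]
    rw [hcardV, hZc]
    have f1 : (1 - ε / 2) * (A * N * N) ≤ ((YY p N y z).ncard : ℝ) := by linarith
    have f2 : (1 - ε / 4) * C ≤ ({c : Tor k h | nrm c < d}.ncard : ℝ) := by linarith
    have f3 : 0 ≤ A * N * N := mul_nonneg (mul_nonneg hA0 hN0.le) hN0.le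
    have f4 : ((1 - ε / 2) * (A * N * N)) * ((1 - ε / 4) * C) ≤
        ((YY p N y z).ncard : ℝ) * ({c : Tor k h | nrm c < d}.ncard : ℝ) := by
      apply mul_le_mul f1 f2
      · exact mul_nonneg (by linarith) hC0
      · exact Nat.cast_nonneg _
    refine le_trans ?_ f4
    have f5 : 0 ≤ A * N * N * C := mul_nonneg f3 hC0
    have f6 : (1 - ε) ≤ (1 - ε / 2) * (1 - ε / 4) := by nlinarith
    calc (1 - ε) * (A * N * N * C) ≤ ((1 - ε / 2) * (1 - ε / 4)) * (A * N * N * C) :=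
          mul_le_mul_of_nonneg_right f6 f5
      _ = ((1 - ε / 2) * (A * N * N)) * ((1 - ε / 4) * C) := by ring
  · -- the diameter
    set c : Tor k h := fun _ => ((h : ℕ) : ZMod (2 * h)) with hcdef
    have hnrm : nrm c = k * h := by
      unfold nrm
      have hh0 : 0 < h := Nat.pos_of_ne_zero (NeZero.ne h)
      have e1 : ∀ i ∈ (Finset.univ : Finset (Fin k)), (c i).valMinAbs.natAbs = h := by
        intro i _
        rw [hcdef, ZMod.valMinAbs_natAbs_eq_min, ZMod.val_natCast,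
          Nat.mod_eq_of_lt (by omega)]
        omega
      rw [Finset.sum_congr rfl e1, Finset.sum_const, Finset.card_univ, Fintype.card_fin,
        smul_eq_mul]
    have h6 : (SimpleGraph.fromRel (SS p N k h y z)).ediam ≠ ⊤ :=
      (SimpleGraph.connected_iff_ediam_ne_top).1 hconn
    have h7 := SimpleGraph.dist_le_diam h6 (u := oo R N k h) (v := ((0, 0, 0, 0), c))
    have h8 : k * h ≤ (SimpleGraph.fromRel (SS p N k h y z)).dist (oo R N k h)
        ((0, 0, 0, 0), c) := by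
      have h9 := (dist_le_iff hr hs hc _ ((0, 0, 0, 0), c)).1 (le_refl _)
      rw [reach_prod] at h9
      have h10 := nrm_of_reach _ _ h9.2
      rw [hnrm] at h10
      exact h10
    have h9 : (k * h : ℕ) ≤ (SimpleGraph.fromRel (SS p N k h y z)).diam := h8.trans h7
    have h10 : ((k : ℝ) * h) ≤ ((SimpleGraph.fromRel (SS p N k h y z)).diam : ℝ) := by
      exact_mod_cast h9
    exact hh2.trans h10

end product

/-- The strong form for one `ε`. -/
theorem exists_great (ε : ℝ) (hε : 0 < ε) (hε1 : ε ≤ 1) : ∃ Δ : ℕ, ∀ m : ℕ,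
    ∃ (V : Type) (G : SimpleGraph V) (d : ℕ) (o : V), Finite V ∧ m ≤ Nat.card V ∧
      Great Δ ε G d o := by
  obtain ⟨k, hk⟩ := exists_nat_ge (64 / ε ^ 3)
  obtain ⟨p0, hp0⟩ := exists_nat_ge (96 / ε)
  obtain ⟨p, hp1, hp2⟩ := Nat.exists_infinite_primes (p0 + 3)
  have : Fact p.Prime := ⟨hp2⟩
  have hk' : 64 ≤ ε ^ 3 * k := by
    rw [div_le_iff₀ (by positivity)] at hk
    linarith
  have hkpos : 0 < k := by
    rcases Nat.eq_zero_or_pos k with h0 | h0
    · rw [h0] at hk'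
      norm_num at hk'
    · exact h0
  have : NeZero k := ⟨hkpos.ne'⟩
  have hp' : 96 ≤ ε * p := by
    have e1 : (p0 : ℝ) ≤ p := by
      have : p0 ≤ p := by omega
      exact_mod_cast this
    rw [div_le_iff₀ hε] at hp0
    nlinarith
  have h2 : (2 : ZMod p) ≠ 0 := by
    intro h0
    have h1 : ((2 : ℕ) : ZMod p) = 0 := by exact_mod_cast h0
    rw [ZMod.natCast_eq_zero_iff] at h1
    have := Nat.le_of_dvd (by norm_num) h1
    omega
  refine ⟨27 * p ^ 2 * (3 * k), fun m => ?_⟩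
  obtain ⟨a0, ha0⟩ := exists_nat_ge ((24 + 2 * (k : ℝ)) / ε)
  set a : ℕ := a0 + m + 2 with ha
  set N : ℕ := p ^ a with hN
  have hNa : a < N := Nat.lt_pow_self hp2.one_lt
  have hN2 : 2 ≤ N := by omega
  have : NeZero N := ⟨by omega⟩
  obtain ⟨R, hR1, hR2, hR3, y, z, hy, hz, hyz, hspan, hcard⟩ := exists_ring p a
  have hd : (24 + 2 * (k : ℝ)) / ε ≤ ((N - 1 : ℕ) : ℝ) := by
    refine ha0.trans ?_
    have : a0 ≤ N - 1 := by omega
    exact_mod_cast this
  rw [div_le_iff₀ hε] at hd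
  set d : ℕ := N - 1 with hdd
  have hNε : 24 ≤ ε * N := by
    have e1 : (d : ℝ) ≤ N := by
      have : d ≤ N := by omega
      exact_mod_cast this
    have e2 : (0 : ℝ) ≤ k := Nat.cast_nonneg _
    nlinarith
  have hd0 : (0 : ℝ) < d := by
    have : 0 < d := by omega
    exact_mod_cast this
  have hk0 : (0 : ℝ) < k := by exact_mod_cast hkpos
  set h : ℕ := ⌊(2 - ε / 2) * (d : ℝ) / k⌋₊ with hh
  have hq0 : 0 ≤ (2 - ε / 2) * (d : ℝ) / k := by
    apply div_nonneg _ hk0.le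
    apply mul_nonneg _ hd0.le
    linarith
  have hh1 : (k : ℝ) * h ≤ (2 - ε / 2) * (d : ℝ) := by
    have e1 := Nat.floor_le hq0
    rw [← hh, le_div_iff₀ hk0] at e1
    linarith
  have hh2 : (2 - ε) * (d : ℝ) ≤ (k : ℝ) * h := by
    have e1 := Nat.lt_floor_add_one ((2 - ε / 2) * (d : ℝ) / k)
    rw [← hh, div_lt_iff₀ hk0] at e1
    nlinarith
  have hhpos : 0 < h := by
    rcases Nat.eq_zero_or_pos h with h0 | h0
    · rw [h0] at hh2
      push_cast at hh2
      rw [mul_zero] at hh2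
      nlinarith
    · exact h0
  have : NeZero h := ⟨hhpos.ne'⟩
  have key := great (p := p) (R := R) (N := N) (k := k) (h := h) y z hN2 hy hz hyz h2 hspan hcard
    ε hε hε1 hp' hNε hk' hh1 hh2
  refine ⟨HV R N 1 × Tor k h, _, _, _, inferInstance, ?_, key⟩
  have e1 : Nat.card (HV R N 1 × Tor k h) = p ^ N * (N * (N * 1)) * Nat.card (Tor k h) := by
    rw [Nat.card_prod, Nat.card_prod, Nat.card_prod, Nat.card_prod, Nat.card_zmod, Nat.card_zmod,
      hcard]
  rw [e1]
  have e2 : 1 ≤ p ^ N := Nat.one_le_pow _ _ hp2.pos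
  have e3 : 1 ≤ Nat.card (Tor k h) := Nat.card_pos
  calc m ≤ N := by omega
    _ = 1 * (N * (1 * 1)) * 1 := by ring
    _ ≤ p ^ N * (N * (N * 1)) * Nat.card (Tor k h) :=
        Nat.mul_le_mul (Nat.mul_le_mul e2 (Nat.mul_le_mul_left _
          (Nat.mul_le_mul_right _ (by omega)))) e3

end Pool.Agent.MP_f6404a_co
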