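import Pool.Agent.Lib.MP_f6404a_co.Walk

set_option autoImplicit false

namespace Pool.Agent.MP_f6404a_co

open Polynomial

section upper

variable {p : ℕ} [Fact p.Prime] {R : Type} [CommRing R] [Algebra (ZMod p) R]
variable {N L : ℕ} [NeZero N] (y z : Rˣ)

omit [NeZero N] in
theorem span_swap (y z : Rˣ) (hyz : (y : R) + z = 2)
    (hspan : ∀ v : R, ∃ f : (ZMod p)[X], f.natDegree ≤ N - 1 ∧ v = aeval (y : R) f) :
    ∀ v : R, ∃ f : (ZMod p)[X], f.natDegree ≤ N - 1 ∧ v = aeval (z : R) f := by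
  intro v
  obtain ⟨f, hf, hf'⟩ := hspan v
  refine ⟨f.comp (C 2 - X), ?_, ?_⟩
  · refine natDegree_comp_le.trans ?_
    have h1 : (C 2 - X : (ZMod p)[X]).natDegree ≤ 1 := by
      refine (natDegree_sub_le _ _).trans ?_
      rw [natDegree_C]
      exact max_le (Nat.zero_le _) natDegree_X_le
    calc f.natDegree * (C 2 - X : (ZMod p)[X]).natDegree ≤ f.natDegree * 1 :=
          Nat.mul_le_mul_left _ h1
      _ ≤ N - 1 := by rw [mul_one]; exact hf
  · rw [aeval_comp]
    have h2 : aeval (z : R) (C 2 - X : (ZMod p)[X]) = y := by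
      rw [map_sub, aeval_X, aeval_C, map_ofNat, ← hyz]
      ring
    rw [h2]
    exact hf'

theorem upper (hy : y ^ N = 1) (hz : z ^ N = 1) (hyz : (y : R) + z = 2) (h2 : (2 : ZMod p) ≠ 0)
    (hspan : ∀ v : R, ∃ f : (ZMod p)[X], f.natDegree ≤ N - 1 ∧ v = aeval (y : R) f)
    (w : HV R N L) (hN : 2 ≤ N) (hi : w.2.1 ≠ 0) (hj : w.2.2.1 ≠ 0)
    (hk : w.2.2.2.valMinAbs.natAbs ≤ N - 1) :
    Reach (St p y z N L) (0, 0, 0, 0) (N - 1) w := by
  obtain ⟨v, i, j, k⟩ := w
  simp only at hi hj hk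
  -- the third coordinate
  set kk : ℤ := k.valMinAbs with hkk
  obtain ⟨K, K0, hK, hKT⟩ : ∃ K : ℕ → ℤ, K 0 = 0 ∧ (∀ s, s < N - 1 → |K (s + 1) - K s| ≤ 1) ∧
      K (N - 1) = kk := by
    refine ⟨fun s => if 0 ≤ kk then min (s : ℤ) kk else -min (s : ℤ) (-kk), ?_, ?_, ?_⟩
    · split_ifs with h
      · push_cast
        exact min_eq_left h
      · push_cast
        rw [min_eq_left (by omega)]
        rfl
    · intro s _
      simp only
      rw [abs_le]
      split_ifs with h
      · push_cast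
        constructor <;> omega
      · push_cast
        constructor <;> omega
    · simp only
      split_ifs with h
      · omega
      · omega
  have hKc : (K (N - 1) : ZMod L) = k := by
    rw [hKT, hkk, ZMod.coe_valMinAbs]
  set i1 := i.val with hi1
  set j1 := j.val with hj1
  have hi1N : i1 < N := ZMod.val_lt i
  have hj1N : j1 < N := ZMod.val_lt j
  have hi10 : i1 ≠ 0 := fun h => hi ((ZMod.val_eq_zero i).1 h)
  have hj10 : j1 ≠ 0 := fun h => hj ((ZMod.val_eq_zero j).1 h)
  have hic : ((i1 : ℤ) : ZMod N) = i := by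
    rw [Int.cast_natCast, hi1, ZMod.natCast_zmod_val]
  have hjc : ((j1 : ℤ) : ZMod N) = j := by
    rw [Int.cast_natCast, hj1, ZMod.natCast_zmod_val]
  have hNc : ((N : ℤ) : ZMod N) = 0 := by simp
  rcases le_total i1 j1 with hle | hle
  · obtain ⟨c, hc⟩ := span_path y z hyz h2 N hspan (i1 - 1) j1 (by omega) (by omega) v
    have key := reach_path (p := p) (L := L) y z hy hz (fun s => -((s - (i1 - 1) : ℕ) : ℤ))
      (fun s => ((min s j1 : ℕ) : ℤ)) K (by simp) (by simp) K0 c (N - 1) (by omega)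
      (by
        intro s _
        refine ⟨?_, ?_, ?_⟩
        · rw [abs_le]; constructor <;> omega
        · rw [abs_le]; constructor <;> omega
        · rw [abs_le]; constructor <;> omega) hK
    have e1 : ((-((N - 1 - (i1 - 1) : ℕ) : ℤ) : ℤ) : ZMod N) = i := by
      have : (-((N - 1 - (i1 - 1) : ℕ) : ℤ) : ℤ) = (i1 : ℤ) - N := by omega
      rw [this, Int.cast_sub, hic, hNc, sub_zero]
    have e2 : (((min (N - 1) j1 : ℕ) : ℤ) : ZMod N) = j := by
      have : ((min (N - 1) j1 : ℕ) : ℤ) = j1 := by omega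
      rw [this, hjc]
    rw [e1, e2, hKc, ← hc] at key
    exact key
  · have hspan' := span_swap (N := N) y z hyz hspan
    obtain ⟨c, hc⟩ := span_path z y (by rw [add_comm]; exact hyz) h2 N hspan' (j1 - 1) i1
      (by omega) (by omega) v
    have hc' : v = ∑ s ∈ Finset.range (N - 1 + 1),
        c s • E y z ((min s i1 : ℕ) : ℤ) (-((s - (j1 - 1) : ℕ) : ℤ)) := by
      rw [hc]
      exact Finset.sum_congr rfl fun s _ => by rw [E_swap]
    have key := reach_path (p := p) (L := L) y z hy hz (fun s => ((min s i1 : ℕ) : ℤ))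
      (fun s => -((s - (j1 - 1) : ℕ) : ℤ)) K (by simp) (by simp) K0 c (N - 1) (by omega)
      (by
        intro s _
        refine ⟨?_, ?_, ?_⟩
        · rw [abs_le]; constructor <;> omega
        · rw [abs_le]; constructor <;> omega
        · rw [abs_le]; constructor <;> omega) hK
    have e1 : ((-((N - 1 - (j1 - 1) : ℕ) : ℤ) : ℤ) : ZMod N) = j := by
      have : (-((N - 1 - (j1 - 1) : ℕ) : ℤ) : ℤ) = (j1 : ℤ) - N := by omega
      rw [this, Int.cast_sub, hjc, hNc, sub_zero]
    have e2 : (((min (N - 1) i1 : ℕ) : ℤ) : ZMod N) = i := by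
      have : ((min (N - 1) i1 : ℕ) : ℤ) = i1 := by omega
      rw [this, hic]
    rw [e1, e2, hKc, ← hc'] at key
    exact key

/-- everything can be reached -/
theorem reach_all [NeZero L] (hy : y ^ N = 1) (hz : z ^ N = 1) (hyz : (y : R) + z = 2)
    (h2 : (2 : ZMod p) ≠ 0)
    (hspan : ∀ v : R, ∃ f : (ZMod p)[X], f.natDegree ≤ N - 1 ∧ v = aeval (y : R) f)
    (hN : 2 ≤ N) (w : HV R N L) : ∃ T, Reach (St p y z N L) (0, 0, 0, 0) T w := by
  have step : ∀ v w : HV R N L, (∃ T, Reach (St p y z N L) (0, 0, 0, 0) T v) → St p y z N L v w →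
      ∃ T, Reach (St p y z N L) (0, 0, 0, 0) T w := by
    rintro v w ⟨T, hT⟩ hvw
    exact ⟨T + 1, v, hT, hvw⟩
  have hone : (1 : ZMod N) ≠ 0 := by
    intro h
    have h1 : (1 : ZMod N).val = 1 := by
      have : Fact (1 < N) := ⟨by omega⟩
      exact ZMod.val_one N
    rw [h, ZMod.val_zero] at h1
    omega
  -- generic positions, cycle coordinate 0
  have g0 : ∀ (v : R) (i j : ZMod N), i ≠ 0 → j ≠ 0 →
      ∃ T, Reach (St p y z N L) (0, 0, 0, 0) T (v, i, j, 0) := by
    intro v i j hi hj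
    exact ⟨N - 1, upper y z hy hz hyz h2 hspan _ hN hi hj (by simp)⟩
  have g1 : ∀ (v : R) (i j : ZMod N), j ≠ 0 →
      ∃ T, Reach (St p y z N L) (0, 0, 0, 0) T (v, i, j, 0) := by
    intro v i j hj
    by_cases hi : i = 0
    · refine step (v, 1, j, 0) _ (g0 v 1 j hone hj) ?_
      exact ⟨-1, 0, by simp [IsMove], 0, 0, by simp [hi], by simp, by simp, 0, by simp, by simp⟩
    · exact g0 v i j hi hj
  have g2 : ∀ (v : R) (i j : ZMod N),
      ∃ T, Reach (St p y z N L) (0, 0, 0, 0) T (v, i, j, 0) := by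
    intro v i j
    by_cases hj : j = 0
    · refine step (v, i, 1, 0) _ (g1 v i 1 hone) ?_
      exact ⟨0, -1, by simp [IsMove], 0, 0, by simp, by simp [hj], by simp, 0, by simp, by simp⟩
    · exact g1 v i j hj
  have g3 : ∀ (n : ℕ) (v : R) (i j : ZMod N),
      ∃ T, Reach (St p y z N L) (0, 0, 0, 0) T (v, i, j, (n : ZMod L)) := by
    intro n
    induction n with
    | zero => intro v i j; simpa using g2 v i j
    | succ n ih =>
      intro v i j
      refine step _ _ (ih v i j) ?_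
      exact ⟨0, 0, by simp [IsMove], 0, 0, by simp, by simp, by simp, 1, by simp, by simp⟩
  obtain ⟨v, i, j, k⟩ := w
  have := g3 k.val v i j
  rwa [ZMod.natCast_zmod_val] at this

end upper

end Pool.Agent.MP_f6404a_co
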