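import Pool.Agent.Lib.MP_f6404a_co.Graph
import Pool.Agent.Lib.MP_f6404a_co.Comb
import Pool.Agent.Lib.MP_f6404a_co.Alg

set_option autoImplicit false

namespace Pool.Agent.MP_f6404a_co

open Polynomial

section defs

variable {R : Type} [CommRing R]

/-- the weight attached to a position -/
def e {N : ℕ} (y z : Rˣ) (i j : ZMod N) : R := E y z (i.val : ℤ) (j.val : ℤ)

theorem e_cast {N : ℕ} [NeZero N] (y z : Rˣ) (hy : y ^ N = 1) (hz : z ^ N = 1) (a b : ℤ) :
    e y z (a : ZMod N) (b : ZMod N) = E y z a b := by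
  unfold e E
  rw [ZMod.val_intCast, ZMod.val_intCast]
  have h1 : y ^ a = y ^ (a % N) := zpow_eq_zpow_emod a (by rw [zpow_natCast]; exact hy)
  have h2 : z ^ b = z ^ (b % N) := zpow_eq_zpow_emod b (by rw [zpow_natCast]; exact hz)
  rw [h1, h2]

theorem e_add {N : ℕ} [NeZero N] (y z : Rˣ) (hy : y ^ N = 1) (hz : z ^ N = 1)
    (i j i' j' : ZMod N) : e y z (i + i') (j + j') = e y z i j * e y z i' j' := by
  have h1 : ∀ i : ZMod N, i = ((i.val : ℤ) : ZMod N) := by
    intro i
    rw [Int.cast_natCast, ZMod.natCast_zmod_val]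
  have h2 : i + i' = (((i.val : ℤ) + (i'.val : ℤ) : ℤ) : ZMod N) := by
    rw [Int.cast_add, ← h1, ← h1]
  have h3 : j + j' = (((j.val : ℤ) + (j'.val : ℤ) : ℤ) : ZMod N) := by
    rw [Int.cast_add, ← h1, ← h1]
  rw [h2, h3, e_cast y z hy hz, E_add]
  rfl

theorem e_zero {N : ℕ} [NeZero N] (y z : Rˣ) : e y z (0 : ZMod N) (0 : ZMod N) = 1 := by
  unfold e
  rw [ZMod.val_zero]
  exact E_zero y z

end defs

section graph

variable (p : ℕ) [Fact p.Prime] {R : Type} [CommRing R] [Algebra (ZMod p) R]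

/-- the vertex set -/
abbrev HV (R : Type) (N L : ℕ) : Type := R × ZMod N × ZMod N × ZMod L

/-- the step relation -/
def St (y z : Rˣ) (N L : ℕ) (v w : HV R N L) : Prop :=
  ∃ a b : ℤ, IsMove a b ∧ ∃ c c' : ZMod p, w.2.1 = v.2.1 + a ∧ w.2.2.1 = v.2.2.1 + b ∧
    w.1 = v.1 + c • e y z v.2.1 v.2.2.1 + c' • e y z w.2.1 w.2.2.1 ∧
    ∃ k : ℤ, |k| ≤ 1 ∧ w.2.2.2 = v.2.2.2 + k

variable {p} {N L : ℕ} (y z : Rˣ)

theorem St_refl (v : HV R N L) : St p y z N L v v :=
  ⟨0, 0, by simp [IsMove], 0, 0, by simp, by simp, by simp, 0, by simp, by simp⟩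

theorem St_symm (v w : HV R N L) (h : St p y z N L v w) : St p y z N L w v := by
  obtain ⟨a, b, hab, c, c', h1, h2, h3, k, hk, h4⟩ := h
  refine ⟨-a, -b, ?_, -c', -c, ?_, ?_, ?_, -k, by rwa [abs_neg], ?_⟩
  · obtain ⟨x1, x2, x3⟩ := hab
    refine ⟨by rwa [abs_neg], by rwa [abs_neg], ?_⟩
    rw [← neg_add, abs_neg]
    exact x3
  · rw [h1]; push_cast; ring
  · rw [h2]; push_cast; ring
  · rw [h3, neg_smul, neg_smul]; ring
  · rw [h4]; push_cast; ring

variable [NeZero N]

/-- left translation -/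
def trans (hy : y ^ N = 1) (hz : z ^ N = 1) (b : HV R N L) : HV R N L ≃ HV R N L where
  toFun v := (b.1 + e y z b.2.1 b.2.2.1 * v.1, b.2.1 + v.2.1, b.2.2.1 + v.2.2.1,
    b.2.2.2 + v.2.2.2)
  invFun v := (e y z (-b.2.1) (-b.2.2.1) * (v.1 - b.1), -b.2.1 + v.2.1, -b.2.2.1 + v.2.2.1,
    -b.2.2.2 + v.2.2.2)
  left_inv v := by
    have h : e y z (-b.2.1) (-b.2.2.1) * e y z b.2.1 b.2.2.1 = 1 := by
      rw [← e_add y z hy hz, neg_add_cancel, neg_add_cancel, e_zero]
    ext
    · simp only [add_sub_cancel_left]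
      rw [← mul_assoc, h, one_mul]
    · simp
    · simp
    · simp
  right_inv v := by
    have h : e y z b.2.1 b.2.2.1 * e y z (-b.2.1) (-b.2.2.1) = 1 := by
      rw [← e_add y z hy hz, add_neg_cancel, add_neg_cancel, e_zero]
    ext
    · simp only
      rw [← mul_assoc, h, one_mul, add_sub_cancel]
    · simp
    · simp
    · simp

theorem trans_St (hy : y ^ N = 1) (hz : z ^ N = 1) (b : HV R N L) (v w : HV R N L)
    (h : St p y z N L v w) : St p y z N L (trans y z hy hz b v) (trans y z hy hz b w) := by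
  obtain ⟨a, b', hab, c, c', h1, h2, h3, k, hk, h4⟩ := h
  refine ⟨a, b', hab, c, c', ?_, ?_, ?_, k, hk, ?_⟩
  · simp only [trans, Equiv.coe_fn_mk]
    rw [h1]; ring
  · simp only [trans, Equiv.coe_fn_mk]
    rw [h2]; ring
  · simp only [trans, Equiv.coe_fn_mk]
    rw [e_add y z hy hz, e_add y z hy hz, h3, mul_add, mul_add, mul_smul_comm, mul_smul_comm]
    ring
  · simp only [trans, Equiv.coe_fn_mk]
    rw [h4]; ring

theorem trans_zero (hy : y ^ N = 1) (hz : z ^ N = 1) (b : HV R N L) :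
    trans y z hy hz b (0, 0, 0, 0) = b := by
  simp [trans]

theorem trans_St_iff (hy : y ^ N = 1) (hz : z ^ N = 1) (b : HV R N L) (v w : HV R N L) :
    St p y z N L (trans y z hy hz b v) (trans y z hy hz b w) ↔ St p y z N L v w := by
  constructor
  · intro h
    have h1 : ∀ v, (trans y z hy hz b).symm v =
        trans y z hy hz ((trans y z hy hz b).symm (0, 0, 0, 0)) v := by
      intro v
      simp only [trans, Equiv.coe_fn_symm_mk, Equiv.coe_fn_mk]
      ext
      · simp only [zero_sub, add_zero]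
        ring
      · simp
      · simp
      · simp
    have h2 := trans_St (p := p) y z hy hz ((trans y z hy hz b).symm (0, 0, 0, 0)) _ _ h
    rw [← h1, ← h1, Equiv.symm_apply_apply, Equiv.symm_apply_apply] at h2
    exact h2
  · exact trans_St y z hy hz b v w

theorem transitive (hy : y ^ N = 1) (hz : z ^ N = 1) (u v : HV R N L) :
    ∃ φ : HV R N L ≃ HV R N L, φ u = v ∧ ∀ a b, St p y z N L (φ a) (φ b) ↔ St p y z N L a b := by
  refine ⟨(trans y z hy hz u).symm.trans (trans y z hy hz v), ?_, ?_⟩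
  · rw [Equiv.trans_apply]
    have : (trans y z hy hz u).symm u = (0, 0, 0, 0) := by
      rw [Equiv.symm_apply_eq, trans_zero]
    rw [this, trans_zero]
  · intro a b
    rw [Equiv.trans_apply, Equiv.trans_apply, trans_St_iff]
    conv_rhs => rw [← Equiv.apply_symm_apply (trans y z hy hz u) a,
      ← Equiv.apply_symm_apply (trans y z hy hz u) b, trans_St_iff]

omit [NeZero N] in
theorem deg_bound (v : HV R N L) : {w | St p y z N L v w}.ncard ≤ 27 * p ^ 2 := by
  classical
  let F : (Fin 3 × Fin 3 × Fin 3 × ZMod p × ZMod p) → HV R N L := fun t =>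
    (v.1 + t.2.2.2.1 • e y z v.2.1 v.2.2.1 +
      t.2.2.2.2 • e y z (v.2.1 + (((t.1.val : ℤ) - 1 : ℤ) : ZMod N))
        (v.2.2.1 + (((t.2.1.val : ℤ) - 1 : ℤ) : ZMod N)),
     v.2.1 + (((t.1.val : ℤ) - 1 : ℤ) : ZMod N), v.2.2.1 + (((t.2.1.val : ℤ) - 1 : ℤ) : ZMod N),
     v.2.2.2 + (((t.2.2.1.val : ℤ) - 1 : ℤ) : ZMod L))
  have hF : {w | St p y z N L v w} ⊆ Set.range F := by
    rintro w ⟨a, b, hab, c, c', h1, h2, h3, k, hk, h4⟩
    have hfin : ∀ a : ℤ, |a| ≤ 1 → ∃ t : Fin 3, (t.val : ℤ) - 1 = a := by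
      intro a ha
      rw [abs_le] at ha
      refine ⟨⟨(a + 1).toNat, by omega⟩, ?_⟩
      simp only
      omega
    obtain ⟨t1, ht1⟩ := hfin a hab.1
    obtain ⟨t2, ht2⟩ := hfin b hab.2.1
    obtain ⟨t3, ht3⟩ := hfin k hk
    refine ⟨(t1, t2, t3, c, c'), ?_⟩
    simp only [F]
    rw [ht1, ht2, ht3, ← h1, ← h2, ← h3, ← h4]
  have hfin : (Set.range F).Finite := Set.finite_range F
  refine (Set.ncard_le_ncard hF hfin).trans ?_
  rw [← Set.image_univ]
  refine (Set.ncard_image_le (Set.toFinite _)).trans ?_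
  rw [Set.ncard_univ, Nat.card_eq_fintype_card]
  simp only [Fintype.card_prod, Fintype.card_fin, ZMod.card]
  apply le_of_eq
  ring

/-- from a path to reachability -/
theorem reach_path (hy : y ^ N = 1) (hz : z ^ N = 1) (P Q K : ℕ → ℤ) (P0 : P 0 = 0) (Q0 : Q 0 = 0)
    (K0 : K 0 = 0) (c : ℕ → ZMod p) (T : ℕ) (hT : 1 ≤ T)
    (hm : ∀ s, s < T → IsMove (P (s + 1) - P s) (Q (s + 1) - Q s))
    (hk : ∀ s, s < T → |K (s + 1) - K s| ≤ 1) :
    Reach (St p y z N L) (0, 0, 0, 0) T
      (∑ s ∈ Finset.range (T + 1), c s • E y z (P s) (Q s), (P T : ZMod N), (Q T : ZMod N),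
        (K T : ZMod L)) := by
  induction T, hT using Nat.le_induction with
  | base =>
    refine ⟨(0, 0, 0, 0), rfl, P 1 - P 0, Q 1 - Q 0, hm 0 (by norm_num), c 0, c 1, ?_, ?_, ?_,
      K 1 - K 0, hk 0 (by norm_num), ?_⟩
    · simp [P0]
    · simp [Q0]
    · simp only
      rw [e_cast y z hy hz, e_zero, Finset.sum_range_succ, Finset.sum_range_one, P0, Q0, E_zero,
        zero_add]
    · simp [K0]
  | succ T hT ih =>
    refine ⟨_, ih (fun s hs => hm s (by omega)) (fun s hs => hk s (by omega)), P (T + 1) - P T,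
      Q (T + 1) - Q T, hm T (by omega), 0, c (T + 1), ?_, ?_, ?_,
      K (T + 1) - K T, hk T (by omega), ?_⟩
    · simp
    · simp
    · simp only
      rw [Finset.sum_range_succ _ (T + 1), e_cast y z hy hz (P (T + 1)) (Q (T + 1)), zero_smul,
        add_zero]
    · simp

/-- from reachability to a path -/
theorem path_of_reach (hy : y ^ N = 1) (hz : z ^ N = 1) (T : ℕ) (w : HV R N L)
    (h : Reach (St p y z N L) (0, 0, 0, 0) T w) :
    ∃ P Q : ℕ → ℤ, P 0 = 0 ∧ Q 0 = 0 ∧
      (∀ s, s < T → IsMove (P (s + 1) - P s) (Q (s + 1) - Q s)) ∧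
      w.2.1 = (P T : ZMod N) ∧ w.2.2.1 = (Q T : ZMod N) ∧
      ∃ c : ℕ → ZMod p, w.1 = ∑ s ∈ Finset.range (T + 1), c s • E y z (P s) (Q s) := by
  induction T generalizing w with
  | zero =>
    have hw : w = (0, 0, 0, 0) := h
    subst hw
    exact ⟨fun _ => 0, fun _ => 0, rfl, rfl, fun s hs => absurd hs (Nat.not_lt_zero _), by simp,
      by simp, fun _ => 0, by simp⟩
  | succ T ih =>
    obtain ⟨v, hv, a, b, hab, c1, c2, h1, h2, h3, -⟩ := h
    obtain ⟨P, Q, P0, Q0, hm, hP, hQ, c, hc⟩ := ih v hv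
    refine ⟨fun s => if s ≤ T then P s else P T + a, fun s => if s ≤ T then Q s else Q T + b,
      ?_, ?_, ?_, ?_, ?_, fun s => if s < T then c s else if s = T then c T + c1 else c2, ?_⟩
    · simp [P0]
    · simp [Q0]
    · intro s hs
      by_cases hsT : s < T
      · have e1 : s ≤ T := by omega
        have e2 : s + 1 ≤ T := by omega
        simp only [e1, e2, if_true]
        exact hm s hsT
      · have e1 : s = T := by omega
        subst e1
        simp only [le_refl, if_true, show ¬ (s + 1 ≤ s) by omega, if_false]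
        simpa using hab
    · simp only [show ¬ (T + 1 ≤ T) by omega, if_false]
      rw [h1, hP]; push_cast; ring
    · simp only [show ¬ (T + 1 ≤ T) by omega, if_false]
      rw [h2, hQ]; push_cast; ring
    · rw [Finset.sum_range_succ, Finset.sum_range_succ, h3, hc, Finset.sum_range_succ]
      have hw : e y z w.2.1 w.2.2.1 = E y z (P T + a) (Q T + b) := by
        rw [h1, h2, hP, hQ, ← Int.cast_add, ← Int.cast_add, e_cast y z hy hz]
      have hv' : e y z v.2.1 v.2.2.1 = E y z (P T) (Q T) := by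
        rw [hP, hQ, e_cast y z hy hz]
      rw [hw, hv']
      have h5 : ∑ s ∈ Finset.range T, (if s < T then c s else if s = T then c T + c1 else c2) •
          E y z (if s ≤ T then P s else P T + a) (if s ≤ T then Q s else Q T + b) =
          ∑ s ∈ Finset.range T, c s • E y z (P s) (Q s) := by
        apply Finset.sum_congr rfl
        intro s hs
        rw [Finset.mem_range] at hs
        rw [if_pos hs, if_pos hs.le, if_pos hs.le]
      rw [h5]
      simp only [lt_irrefl, if_false, if_true, le_refl, show ¬ (T + 1 < T) by omega,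
        show ¬ (T + 1 = T) by omega, show ¬ (T + 1 ≤ T) by omega]
      rw [add_smul]
      ring

omit [NeZero N] in
theorem reach_cycle [NeZero L] (T : ℕ) (w : HV R N L)
    (h : Reach (St p y z N L) (0, 0, 0, 0) T w) : w.2.2.2.valMinAbs.natAbs ≤ T := by
  induction T generalizing w with
  | zero =>
    have hw : w = (0, 0, 0, 0) := h
    subst hw
    simp
  | succ T ih =>
    obtain ⟨v, hv, a, b, hab, c1, c2, h1, h2, h3, k, hk, h4⟩ := h
    have h5 := ih v hv
    rw [h4]
    have h6 := ZMod.natAbs_valMinAbs_add_le v.2.2.2 (k : ZMod L)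
    have h7 : ((k : ZMod L).valMinAbs).natAbs ≤ 1 := by
      rw [abs_le] at hk
      have hk' : k = -1 ∨ k = 0 ∨ k = 1 := by omega
      have hone : ((1 : ZMod L).valMinAbs).natAbs ≤ 1 := by
        have := ZMod.natAbs_valMinAbs_le (1 : ZMod L)
        have h8 : (1 : ZMod L) = ((1 : ℤ) : ZMod L) := by simp
        by_cases hL : L = 1
        · subst hL
          have : (1 : ZMod 1) = 0 := Subsingleton.elim _ _
          rw [this]; simp
        · rw [ZMod.valMinAbs_natAbs_eq_min]
          have h9 : (1 : ZMod L).val ≤ 1 := by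
            have := ZMod.val_one'' (n := L) hL
            omega
          exact (min_le_left _ _).trans h9
      rcases hk' with rfl | rfl | rfl
      · rw [Int.cast_neg, Int.cast_one, ZMod.natAbs_valMinAbs_neg]
        exact hone
      · simp
      · rw [Int.cast_one]; exact hone
    have h8 := Int.natAbs_add_le v.2.2.2.valMinAbs (k : ZMod L).valMinAbs
    omega

end graph

end Pool.Agent.MP_f6404a_co
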